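import Mathlib

set_option autoImplicit false

namespace Pool.Agent.Y323.Av

/-- the four points -/
def pts : Set (ℝ × ℝ) := {(0, 0), (0, 1), (1, 1), (5 / 7, 2 / 7)}

theorem comb_mem {s : Set (ℝ × ℝ)} (hs : Convex ℝ s) {x y : ℝ × ℝ} (hx : x ∈ s) (hy : y ∈ s)
    (t : ℝ) (ht0 : 0 ≤ t) (ht1 : t ≤ 1) (z : ℝ × ℝ)
    (h1 : z.1 = (1 - t) * x.1 + t * y.1) (h2 : z.2 = (1 - t) * x.2 + t * y.2) : z ∈ s := by
  have h := hs hx hy (show 0 ≤ 1 - t by linarith) ht0 (by ring)
  have e : (1 - t) • x + t • y = z := by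
    ext
    · simp [h1]
    · simp [h2]
  rwa [e] at h

theorem hull_iff (u v : ℝ) (hu0 : 0 ≤ u) (hu1 : u ≤ 1) (hv1 : v ≤ 1) :
    (u, v) ∈ convexHull ℝ pts ↔ 2 / 5 * u ≤ v ∧ 1 - 5 / 2 * (1 - u) ≤ v := by
  constructor
  · intro h
    have hsub : convexHull ℝ pts ⊆ {x : ℝ × ℝ | 2 / 5 * x.1 ≤ x.2 ∧ 1 - 5 / 2 * (1 - x.1) ≤ x.2} := by
      apply convexHull_min
      · intro x hx
        simp only [pts, Set.mem_insert_iff, Set.mem_singleton_iff] at hx
        rcases hx with rfl | rfl | rfl | rfl <;> constructor <;> norm_num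
      · intro x hx y hy a b ha hb hab
        obtain ⟨hx1, hx2⟩ := hx
        obtain ⟨hy1, hy2⟩ := hy
        show 2 / 5 * (a * x.1 + b * y.1) ≤ a * x.2 + b * y.2 ∧
          1 - 5 / 2 * (1 - (a * x.1 + b * y.1)) ≤ a * x.2 + b * y.2
        have h1 := mul_le_mul_of_nonneg_left hx1 ha
        have h2 := mul_le_mul_of_nonneg_left hy1 hb
        have h3 := mul_le_mul_of_nonneg_left hx2 ha
        have h4 := mul_le_mul_of_nonneg_left hy2 hb
        constructor
        · linarith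
        · nlinarith
    exact hsub h
  · rintro ⟨h1, h2⟩
    have hc : Convex ℝ (convexHull ℝ pts) := convex_convexHull ℝ pts
    have m1 : ((0 : ℝ), (0 : ℝ)) ∈ convexHull ℝ pts := subset_convexHull ℝ pts (by simp [pts])
    have m2 : ((0 : ℝ), (1 : ℝ)) ∈ convexHull ℝ pts := subset_convexHull ℝ pts (by simp [pts])
    have m3 : ((1 : ℝ), (1 : ℝ)) ∈ convexHull ℝ pts := subset_convexHull ℝ pts (by simp [pts])
    have m4 : ((5 / 7 : ℝ), (2 / 7 : ℝ)) ∈ convexHull ℝ pts := subset_convexHull ℝ pts (by simp [pts])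
    have top : (u, (1 : ℝ)) ∈ convexHull ℝ pts :=
      comb_mem hc m2 m3 u hu0 hu1 _ (by ring) (by ring)
    rcases le_total u (5 / 7) with hu | hu
    · have bot : (u, 2 / 5 * u) ∈ convexHull ℝ pts :=
        comb_mem hc m1 m4 (7 / 5 * u) (by linarith) (by linarith) _ (by ring) (by ring)
      have hpos : 0 < 1 - 2 / 5 * u := by linarith
      refine comb_mem hc bot top ((v - 2 / 5 * u) / (1 - 2 / 5 * u)) ?_ ?_ _ ?_ ?_
      · exact div_nonneg (by linarith) hpos.le
      · rw [div_le_one hpos]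
        linarith
      · ring
      · show v = (1 - (v - 2 / 5 * u) / (1 - 2 / 5 * u)) * (2 / 5 * u) +
          (v - 2 / 5 * u) / (1 - 2 / 5 * u) * 1
        have ht : (v - 2 / 5 * u) / (1 - 2 / 5 * u) * (1 - 2 / 5 * u) = v - 2 / 5 * u :=
          div_mul_cancel₀ _ hpos.ne'
        linear_combination (-1 : ℝ) * ht
    · rcases hu1.eq_or_lt with hu2 | hu2
      · have : v = 1 := by
          rw [hu2] at h2
          linarith
        rw [hu2, this]
        exact m3
      · have bot : (u, 1 - 5 / 2 * (1 - u)) ∈ convexHull ℝ pts :=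
          comb_mem hc m4 m3 (1 - 7 / 2 * (1 - u)) (by linarith) (by linarith) _ (by ring) (by ring)
        have hpos : 0 < 5 / 2 * (1 - u) := by linarith
        refine comb_mem hc bot top ((v - (1 - 5 / 2 * (1 - u))) / (5 / 2 * (1 - u))) ?_ ?_ _ ?_ ?_
        · exact div_nonneg (by linarith) hpos.le
        · rw [div_le_one hpos]
          linarith
        · ring
        · show v = (1 - (v - (1 - 5 / 2 * (1 - u))) / (5 / 2 * (1 - u))) * (1 - 5 / 2 * (1 - u)) +
            (v - (1 - 5 / 2 * (1 - u))) / (5 / 2 * (1 - u)) * 1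
          have ht : (v - (1 - 5 / 2 * (1 - u))) / (5 / 2 * (1 - u)) * (5 / 2 * (1 - u)) =
            v - (1 - 5 / 2 * (1 - u)) := div_mul_cancel₀ _ hpos.ne'
          linear_combination (-1 : ℝ) * ht

end Pool.Agent.Y323.Av
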