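import Pool.Agent.Y323.Av.Key

set_option autoImplicit false

set_option linter.unusedSectionVars false
set_option linter.unusedVariables false

open Finset

namespace Pool.Agent.Y323.Av

variable {G : Type} [AddCommGroup G] [Fintype G] [DecidableEq G]

/-- the kernel -/
noncomputable def ker (V : Finset G) (x y : G) : ℝ := if y - x ∈ V then 1 else 0

theorem ker_nonneg (V : Finset G) (x y : G) : 0 ≤ ker V x y := by
  unfold ker
  split_ifs <;> norm_num

theorem ker_le_one (V : Finset G) (x y : G) : ker V x y ≤ 1 := by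
  unfold ker
  split_ifs <;> norm_num

/-- the bilinear form -/
noncomputable def bil (V : Finset G) (f g : G → ℝ) : ℝ := ∑ x, ∑ y, ker V x y * (f x * g y)

theorem ker_corr (V : Finset G) (y y' : G) :
    ∑ x, ker V x y * ker V x y' = ((V.filter (fun v => v - (y - y') ∈ V)).card : ℝ) := by
  have h1 : ∀ x, ker V x y * ker V x y' = if (y - x ∈ V ∧ y' - x ∈ V) then (1 : ℝ) else 0 := by
    intro x
    unfold ker
    by_cases h : y - x ∈ V <;> by_cases h' : y' - x ∈ V <;> simp [h, h']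
  rw [Finset.sum_congr rfl fun x _ => h1 x, ← Finset.natCast_card_filter]
  congr 1
  apply card_bij (fun x _ => y - x)
  · intro x hx
    simp only [mem_filter, mem_univ, true_and] at hx ⊢
    refine ⟨hx.1, ?_⟩
    have : y - x - (y - y') = y' - x := by abel
    rw [this]
    exact hx.2
  · intro a _ b _ hab
    exact sub_right_injective hab
  · intro v hv
    simp only [mem_filter] at hv
    refine ⟨y - v, ?_, by abel⟩
    simp only [mem_filter, mem_univ, true_and]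
    refine ⟨?_, ?_⟩
    · have : y - (y - v) = v := by abel
      rw [this]
      exact hv.1
    · have : y' - (y - v) = v - (y - y') := by abel
      rw [this]
      exact hv.2

theorem ker_corr' (V : Finset G) (x x' : G) :
    ∑ y, ker V x y * ker V x' y = ((V.filter (fun v => v - (x' - x) ∈ V)).card : ℝ) := by
  have h1 : ∀ y, ker V x y * ker V x' y = if (y - x ∈ V ∧ y - x' ∈ V) then (1 : ℝ) else 0 := by
    intro y
    unfold ker
    by_cases h : y - x ∈ V <;> by_cases h' : y - x' ∈ V <;> simp [h, h']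
  rw [Finset.sum_congr rfl fun y _ => h1 y, ← Finset.natCast_card_filter]
  congr 1
  apply card_bij (fun y _ => y - x)
  · intro y hy
    simp only [mem_filter, mem_univ, true_and] at hy ⊢
    refine ⟨hy.1, ?_⟩
    have : y - x - (x' - x) = y - x' := by abel
    rw [this]
    exact hy.2
  · intro a _ b _ hab
    exact sub_left_injective hab
  · intro v hv
    simp only [mem_filter] at hv
    refine ⟨v + x, ?_, by abel⟩
    simp only [mem_filter, mem_univ, true_and]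
    refine ⟨?_, ?_⟩
    · have : v + x - x = v := by abel
      rw [this]
      exact hv.1
    · have : v + x - x' = v - (x' - x) := by abel
      rw [this]
      exact hv.2

/-- the weight of the exceptional pairs -/
noncomputable def wt (Z : Finset G) (K q : ℝ) (y y' : G) : ℝ :=
  (if y' = y then K * q ^ 3 else 0) + (if y - y' ∈ Z then K * q ^ 2 else 0)

theorem wt_nonneg (Z : Finset G) (K q : ℝ) (hK : 0 ≤ K) (hq : 0 ≤ q) (y y' : G) :
    0 ≤ wt Z K q y y' := by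
  unfold wt
  refine add_nonneg ?_ ?_
  · split_ifs
    · positivity
    · exact le_rfl
  · split_ifs
    · positivity
    · exact le_rfl

theorem wt_sum1 (Z : Finset G) (K q : ℝ) (hK : 0 ≤ K) (hq : 0 ≤ q) (hZ : (Z.card : ℝ) ≤ K * q)
    (y : G) : ∑ y', wt Z K q y y' ≤ (K + K ^ 2) * q ^ 3 := by
  unfold wt
  rw [Finset.sum_add_distrib, Finset.sum_ite_eq' Finset.univ y, if_pos (Finset.mem_univ _),
    ← Finset.sum_filter, Finset.sum_const, nsmul_eq_mul]
  have h1 : ((univ.filter (fun y' => y - y' ∈ Z)).card : ℝ) ≤ K * q := by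
    refine le_trans ?_ hZ
    exact_mod_cast card_le_card_of_injOn (fun y' => y - y')
      (by
        intro a ha
        simp only [coe_filter, mem_univ, true_and, Set.mem_ofPred_eq] at ha
        exact ha)
      (by
        intro a _ b _ hab
        exact sub_right_injective hab)
  have h2 := mul_le_mul_of_nonneg_right h1 (show 0 ≤ K * q ^ 2 by positivity)
  nlinarith

theorem wt_sum2 (Z : Finset G) (K q : ℝ) (hK : 0 ≤ K) (hq : 0 ≤ q) (hZ : (Z.card : ℝ) ≤ K * q)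
    (y' : G) : ∑ y, wt Z K q y y' ≤ (K + K ^ 2) * q ^ 3 := by
  unfold wt
  rw [Finset.sum_add_distrib, Finset.sum_ite_eq Finset.univ y', if_pos (Finset.mem_univ _),
    ← Finset.sum_filter, Finset.sum_const, nsmul_eq_mul]
  have h1 : ((univ.filter (fun y => y - y' ∈ Z)).card : ℝ) ≤ K * q := by
    refine le_trans ?_ hZ
    exact_mod_cast card_le_card_of_injOn (fun y => y - y')
      (by
        intro a ha
        simp only [coe_filter, mem_univ, true_and, Set.mem_ofPred_eq] at ha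
        exact ha)
      (by
        intro a _ b _ hab
        exact sub_left_injective hab)
  have h2 := mul_le_mul_of_nonneg_right h1 (show 0 ≤ K * q ^ 2 by positivity)
  nlinarith

theorem corr_le (V Z : Finset G) (K q : ℕ) (hV : V.card ≤ K * q ^ 3)
    (h1 : ∀ z : G, z ≠ 0 → (V.filter (fun x => x - z ∈ V)).card ≤ K * q ^ 2)
    (h2 : ∀ z : G, z ≠ 0 → z ∉ Z → (V.filter (fun x => x - z ∈ V)).card ≤ K * q) (y y' : G) :
    ((V.filter (fun v => v - (y - y') ∈ V)).card : ℝ) ≤ wt Z K q y y' + K * q := by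
  have hb : (V.filter (fun v => v - (y - y') ∈ V)).card ≤
        (if y' = y then K * q ^ 3 else 0) + (if y - y' ∈ Z then K * q ^ 2 else 0) + K * q := by
    by_cases h0 : y' = y
    · rw [if_pos h0]
      have : (V.filter (fun v => v - (y - y') ∈ V)).card ≤ V.card := card_filter_le _ _
      omega
    · have hne : y - y' ≠ 0 := sub_ne_zero.mpr (Ne.symm h0)
      by_cases hz : y - y' ∈ Z
      · rw [if_pos hz]
        have := h1 (y - y') hne
        omega
      · have := h2 (y - y') hne hz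
        omega
  have hb' : ((V.filter (fun v => v - (y - y') ∈ V)).card : ℝ) ≤
      (((if y' = y then K * q ^ 3 else 0) + (if y - y' ∈ Z then K * q ^ 2 else 0) + K * q : ℕ) : ℝ) :=
    by exact_mod_cast hb
  refine hb'.trans (le_of_eq ?_)
  unfold wt
  push_cast
  rfl

/-- the low part is at most a constant times `q^8`. -/
theorem low_le (A : G → G → ℝ) (hA : ∀ x y, 0 ≤ A x y) (w : G → G → ℝ)
    (hw : ∀ y y', 0 ≤ w y y') (K q : ℝ) (hK : 0 ≤ K) (hq : 1 ≤ q)
    (hG : (Fintype.card G : ℝ) = q ^ 5)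
    (hAw : ∀ y y', ∑ x, A x y * A x y' ≤ w y y' + K * q)
    (hD1 : ∀ y, ∑ y', w y y' ≤ (K + K ^ 2) * q ^ 3)
    (hD2 : ∀ y', ∑ y, w y y' ≤ (K + K ^ 2) * q ^ 3)
    (f : G → ℝ) (g : G → ℝ) (hf : ∀ x, 0 ≤ f x) (hg : ∀ y, 0 ≤ g y)
    (hsf : ∑ x, f x ^ ((7 : ℝ) / 5) ≤ q ^ 5) (hsg : ∑ x, g x ^ ((7 : ℝ) / 5) ≤ q ^ 5) :
    (∑ x, ∑ y, (if f x * g y ≤ q ^ 5 ∧ f x ≤ g y then A x y * (f x * g y) else 0)) ≤
      (3 * (K + 1)) * q ^ 8 := by
  have hq0 : 0 < q := by linarith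
  have h := low A hA w hw (K * q) ((K + K ^ 2) * q ^ 3) (q ^ 5) (by positivity) (by positivity)
    hAw hD1 hD2 f g hf hg
  have h3 : ∑ y, g y ^ ((13 : ℝ) / 10) ≤ 2 * q ^ 5 := by
    calc ∑ y, g y ^ ((13 : ℝ) / 10) ≤ ∑ y, (1 + g y ^ ((7 : ℝ) / 5)) :=
          Finset.sum_le_sum fun y _ => pt3 _ (hg y)
      _ = q ^ 5 + ∑ y, g y ^ ((7 : ℝ) / 5) := by
          rw [Finset.sum_add_distrib, Finset.sum_const, Finset.card_univ, nsmul_eq_mul, hG, mul_one]
      _ ≤ _ := by linarith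
  have h4 : 0 ≤ ∑ y, g y ^ ((13 : ℝ) / 10) :=
    Finset.sum_nonneg fun y _ => Real.rpow_nonneg (hg y) _
  have h5 : (q ^ 5) ^ ((3 : ℝ) / 5) = q ^ 3 := by
    rw [← Real.rpow_natCast, ← Real.rpow_natCast, ← Real.rpow_mul hq0.le]
    norm_num
  have h6 : (∑ y, g y ^ ((13 : ℝ) / 10)) ^ 2 ≤ (2 * q ^ 5) ^ 2 := pow_le_pow_left₀ h4 h3 2
  have h7 : 0 ≤ ∑ x, f x ^ ((7 : ℝ) / 5) := Finset.sum_nonneg fun y _ => Real.rpow_nonneg (hf y) _
  have h8 : 0 ≤ ∑ x, g x ^ ((7 : ℝ) / 5) := Finset.sum_nonneg fun y _ => Real.rpow_nonneg (hg y) _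
  have h9 : 2 * ((K + K ^ 2) * q ^ 3) * (q ^ 5) ^ ((3 : ℝ) / 5) * (∑ y, g y ^ ((7 : ℝ) / 5)) +
        K * q * (∑ y, g y ^ ((13 : ℝ) / 10)) ^ 2 ≤
      2 * ((K + K ^ 2) * q ^ 3) * q ^ 3 * q ^ 5 + K * q * (2 * q ^ 5) ^ 2 := by
    rw [h5]
    refine add_le_add ?_ ?_
    · exact mul_le_mul_of_nonneg_left hsg (by positivity)
    · exact mul_le_mul_of_nonneg_left h6 (by positivity)
  have h10 : (∑ x, f x ^ ((7 : ℝ) / 5)) *
        (2 * ((K + K ^ 2) * q ^ 3) * (q ^ 5) ^ ((3 : ℝ) / 5) * (∑ y, g y ^ ((7 : ℝ) / 5)) +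
        K * q * (∑ y, g y ^ ((13 : ℝ) / 10)) ^ 2) ≤
      q ^ 5 * (2 * ((K + K ^ 2) * q ^ 3) * q ^ 3 * q ^ 5 + K * q * (2 * q ^ 5) ^ 2) := by
    refine mul_le_mul hsf h9 ?_ (by positivity)
    rw [h5]
    positivity
  have h11 := h.trans h10
  refine le_of_sq_le_sq ?_ (by positivity)
  refine h11.trans ?_
  have e : q ^ 5 * (2 * ((K + K ^ 2) * q ^ 3) * q ^ 3 * q ^ 5 + K * q * (2 * q ^ 5) ^ 2) =
      (6 * K + 2 * K ^ 2) * q ^ 16 := by ring
  rw [e]
  have e2 : (3 * (K + 1) * q ^ 8) ^ 2 = (9 * (K + 1) ^ 2) * q ^ 16 := by ring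
  rw [e2]
  refine mul_le_mul_of_nonneg_right ?_ (by positivity)
  nlinarith

/-- the strong type estimate (bilinear form) at the vertex. -/
theorem bil_le (V Z : Finset G) (K q : ℕ) (hq : 1 ≤ q) (hG : Fintype.card G = q ^ 5)
    (hV : V.card ≤ K * q ^ 3) (hZ : Z.card ≤ K * q)
    (h1 : ∀ z : G, z ≠ 0 → (V.filter (fun x => x - z ∈ V)).card ≤ K * q ^ 2)
    (h2 : ∀ z : G, z ≠ 0 → z ∉ Z → (V.filter (fun x => x - z ∈ V)).card ≤ K * q)
    (f g : G → ℝ) (hf : ∀ x, 0 ≤ f x) (hg : ∀ y, 0 ≤ g y)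
    (hsf : ∑ x, f x ^ ((7 : ℝ) / 5) ≤ (q : ℝ) ^ 5) (hsg : ∑ x, g x ^ ((7 : ℝ) / 5) ≤ (q : ℝ) ^ 5) :
    bil V f g ≤ (6 * (K + 1) + 1) * (q : ℝ) ^ 8 := by
  have hq' : (1 : ℝ) ≤ q := by exact_mod_cast hq
  have hq0 : (0 : ℝ) < q := by linarith
  have hK : (0 : ℝ) ≤ K := Nat.cast_nonneg _
  have hG' : (Fintype.card G : ℝ) = (q : ℝ) ^ 5 := by exact_mod_cast hG
  have hZ' : (Z.card : ℝ) ≤ K * q := by exact_mod_cast hZ
  have a1 := low_le (ker V) (ker_nonneg V) (wt Z K q) (wt_nonneg Z K q hK hq0.le) K q hK hq' hG'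
    (fun y y' => by rw [ker_corr]; exact corr_le V Z K q hV h1 h2 y y')
    (wt_sum1 Z K q hK hq0.le hZ') (wt_sum2 Z K q hK hq0.le hZ') f g hf hg hsf hsg
  have a2 := low_le (fun y x => ker V x y) (fun y x => ker_nonneg V x y)
    (fun x x' => wt Z K q x' x) (fun x x' => wt_nonneg Z K q hK hq0.le x' x) K q hK hq' hG'
    (fun x x' => by
      rw [ker_corr']
      exact corr_le V Z K q hV h1 h2 x' x)
    (fun x => wt_sum2 Z K q hK hq0.le hZ' x) (fun x => wt_sum1 Z K q hK hq0.le hZ' x)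
    g f hg hf hsg hsf
  have a3 := high (ker V) (ker_nonneg V) (ker_le_one V) ((q : ℝ) ^ 5) (by positivity) f g hf hg
  have e1 : ((q : ℝ) ^ 5) ^ ((2 : ℝ) / 5) = (q : ℝ) ^ 2 := by
    rw [← Real.rpow_natCast, ← Real.rpow_natCast, ← Real.rpow_mul hq0.le]
    norm_num
  rw [e1] at a3
  have h8 : 0 ≤ ∑ x, g x ^ ((7 : ℝ) / 5) := Finset.sum_nonneg fun y _ => Real.rpow_nonneg (hg y) _
  have a4 : (q : ℝ) ^ 2 * (∑ x, ∑ y, (if (q : ℝ) ^ 5 < f x * g y then ker V x y * (f x * g y) else 0))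
      ≤ (q : ℝ) ^ 2 * (q : ℝ) ^ 8 := by
    refine a3.trans ?_
    calc (∑ x, f x ^ ((7 : ℝ) / 5)) * (∑ y, g y ^ ((7 : ℝ) / 5)) ≤ (q : ℝ) ^ 5 * (q : ℝ) ^ 5 :=
          mul_le_mul hsf hsg h8 (by positivity)
      _ = _ := by ring
  have a5 := le_of_mul_le_mul_left a4 (by positivity)
  rw [Finset.sum_comm] at a2
  have key : bil V f g ≤
      (∑ x, ∑ y, (if f x * g y ≤ (q : ℝ) ^ 5 ∧ f x ≤ g y then ker V x y * (f x * g y) else 0)) +
      (∑ x, ∑ y, (if g y * f x ≤ (q : ℝ) ^ 5 ∧ g y ≤ f x then ker V x y * (g y * f x) else 0)) +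
      (∑ x, ∑ y, (if (q : ℝ) ^ 5 < f x * g y then ker V x y * (f x * g y) else 0)) := by
    unfold bil
    rw [← Finset.sum_add_distrib, ← Finset.sum_add_distrib]
    refine Finset.sum_le_sum fun x _ => ?_
    rw [← Finset.sum_add_distrib, ← Finset.sum_add_distrib]
    refine Finset.sum_le_sum fun y _ => ?_
    have hp : 0 ≤ ker V x y * (f x * g y) := mul_nonneg (ker_nonneg V x y) (mul_nonneg (hf x) (hg y))
    rw [mul_comm (g y) (f x)]
    by_cases hc : f x * g y ≤ (q : ℝ) ^ 5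
    · rw [if_neg (not_lt.mpr hc)]
      rcases le_total (f x) (g y) with hle | hle
      · rw [if_pos ⟨hc, hle⟩]
        split_ifs <;> linarith
      · rw [if_pos (show f x * g y ≤ (q : ℝ) ^ 5 ∧ g y ≤ f x from ⟨hc, hle⟩)]
        split_ifs <;> linarith
    · rw [if_pos (not_le.mp hc)]
      split_ifs <;> linarith
  linarith

end Pool.Agent.Y323.Av
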