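import Mathlib

set_option autoImplicit false

open scoped ENNReal

namespace Pool.Agent.Y323.Av

/-- The variety `H_k = {x ∈ F^d : h_1(x) = ⋯ = h_{d-k}(x) = 0}`, where
`h_j(x) = x_1^(j+1) + ⋯ + x_k^(j+1) - x_{k+j}^(j+1)`.  Coordinates are numbered from `0` here, so
that the coordinate `i ≥ k` belongs to `j = i - k + 1`. -/
def variety (d k : ℕ) (F : Type) [Field F] [Fintype F] [DecidableEq F] : Finset (Fin d → F) :=
  Finset.univ.filter (fun x : Fin d → F => ∀ i : Fin d, k ≤ i.val →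
    ∑ l ∈ Finset.univ.filter (fun l : Fin d => l.val < k),
      x l ^ (i.val - k + 2) = x i ^ (i.val - k + 2))

/-- The average `f ∗ dσ_k (y) = |H_k|^{-1} ∑_{x ∈ H_k} f (y - x)`. -/
noncomputable def average (d k : ℕ) {F : Type} [Field F] [Fintype F] [DecidableEq F]
    (f : (Fin d → F) → ℂ) (y : Fin d → F) : ℂ :=
  ((variety d k F).card : ℂ)⁻¹ * ∑ x ∈ variety d k F, f (y - x)

/-- The norm `‖f‖_{L^p(dx)}` for the normalised counting measure `dx` of `F^d`:
`(q^{-d} ∑ |f|^p)^{1/p}`, that is `q^{-d/p}` times the `ℓ^p` norm (the maximum if `p = ∞`). -/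
noncomputable def normLp (d : ℕ) {F : Type} [Field F] [Fintype F] [DecidableEq F] (p : ℝ≥0∞)
    (f : (Fin d → F) → ℂ) : ℝ :=
  (Fintype.card F : ℝ) ^ (-(d : ℝ) * (p⁻¹).toReal) *
    ‖(WithLp.toLp p f : PiLp p (fun _ : Fin d → F => ℂ))‖

/-- `𝔓(p,r)` of Q2: `‖f ∗ dσ_k‖_r ≤ C ‖f‖_p` for all `f`, uniformly in all finite fields of
sufficiently large characteristic in which `-1` is a square. -/
def AveragingBound (d k : ℕ) (p r : ℝ≥0∞) : Prop :=
  ∃ (N : ℕ) (C : ℝ), ∀ (F : Type) [Field F] [Fintype F] [DecidableEq F],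
    N < ringChar F → IsSquare (-1 : F) → ∀ f : (Fin d → F) → ℂ,
      normLp d r (average d k f) ≤ C * normLp d p f

end Pool.Agent.Y323.Av
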