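import Mathlib

set_option autoImplicit false

/-!
# A strong type bilinear estimate without level sets

`A x y ≥ 0` is a kernel whose columns have almost orthogonality `∑ x, A x y * A x y' ≤ w y y' + κ`.
-/

open Finset

namespace Pool.Agent.Y323.Av

theorem sq_pt (X c n : ℝ) (hX : 0 ≤ X) (hc : 0 ≤ c) (h : X * c ≤ n) :
    c * c * X ^ ((3 : ℝ) / 5) ≤ n ^ ((3 : ℝ) / 5) * c ^ ((7 : ℝ) / 5) := by
  have h1 : c * c = c ^ ((3 : ℝ) / 5) * c ^ ((7 : ℝ) / 5) := by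
    rw [← Real.rpow_add_of_nonneg hc (by norm_num) (by norm_num)]
    norm_num
    ring
  have h2 : (X * c) ^ ((3 : ℝ) / 5) ≤ n ^ ((3 : ℝ) / 5) :=
    Real.rpow_le_rpow (mul_nonneg hX hc) h (by norm_num)
  rw [Real.mul_rpow hX hc] at h2
  calc c * c * X ^ ((3 : ℝ) / 5) = X ^ ((3 : ℝ) / 5) * c ^ ((3 : ℝ) / 5) * c ^ ((7 : ℝ) / 5) := by
        rw [h1]; ring
    _ ≤ _ := mul_le_mul_of_nonneg_right h2 (Real.rpow_nonneg hc _)

theorem pt1 (X a b n : ℝ) (hX : 0 ≤ X) (ha : 0 ≤ a) (hb : 0 ≤ b)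
    (h1 : X * a ≤ n) (h2 : X * b ≤ n) :
    a * b * X ^ ((3 : ℝ) / 5) ≤ n ^ ((3 : ℝ) / 5) * (a ^ ((7 : ℝ) / 5) + b ^ ((7 : ℝ) / 5)) := by
  have hn : 0 ≤ n := (mul_nonneg hX ha).trans h1
  have p1 := sq_pt X a n hX ha h1
  have p2 := sq_pt X b n hX hb h2
  have hXp : 0 ≤ X ^ ((3 : ℝ) / 5) := Real.rpow_nonneg hX _
  have q1 : 0 ≤ n ^ ((3 : ℝ) / 5) * a ^ ((7 : ℝ) / 5) :=
    mul_nonneg (Real.rpow_nonneg hn _) (Real.rpow_nonneg ha _)
  have q2 : 0 ≤ n ^ ((3 : ℝ) / 5) * b ^ ((7 : ℝ) / 5) :=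
    mul_nonneg (Real.rpow_nonneg hn _) (Real.rpow_nonneg hb _)
  rw [mul_add]
  rcases le_total a b with h | h
  · have : a * b * X ^ ((3 : ℝ) / 5) ≤ b * b * X ^ ((3 : ℝ) / 5) :=
      mul_le_mul_of_nonneg_right (mul_le_mul_of_nonneg_right h hb) hXp
    linarith
  · have : a * b * X ^ ((3 : ℝ) / 5) ≤ a * a * X ^ ((3 : ℝ) / 5) :=
      mul_le_mul_of_nonneg_right (mul_le_mul_of_nonneg_left h ha) hXp
    linarith

theorem pt2 (X a b : ℝ) (hX : 0 ≤ X) (ha : 0 ≤ a) (hb : 0 ≤ b) (h1 : X ≤ a) (h2 : X ≤ b) :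
    a * b * X ^ ((3 : ℝ) / 5) ≤ a ^ ((13 : ℝ) / 10) * b ^ ((13 : ℝ) / 10) := by
  have e1 : X ^ ((3 : ℝ) / 5) = X ^ ((3 : ℝ) / 10) * X ^ ((3 : ℝ) / 10) := by
    rw [← Real.rpow_add_of_nonneg hX (by norm_num) (by norm_num)]
    norm_num
  have e2 : ∀ c : ℝ, 0 ≤ c → c ^ ((13 : ℝ) / 10) = c * c ^ ((3 : ℝ) / 10) := by
    intro c hc
    nth_rewrite 2 [← Real.rpow_one c]
    rw [← Real.rpow_add_of_nonneg hc (by norm_num) (by norm_num)]
    norm_num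
  rw [e1, e2 a ha, e2 b hb]
  have g1 : X ^ ((3 : ℝ) / 10) ≤ a ^ ((3 : ℝ) / 10) := Real.rpow_le_rpow hX h1 (by norm_num)
  have g2 : X ^ ((3 : ℝ) / 10) ≤ b ^ ((3 : ℝ) / 10) := Real.rpow_le_rpow hX h2 (by norm_num)
  have g0 : 0 ≤ X ^ ((3 : ℝ) / 10) := Real.rpow_nonneg hX _
  calc a * b * (X ^ ((3 : ℝ) / 10) * X ^ ((3 : ℝ) / 10))
      ≤ a * b * (a ^ ((3 : ℝ) / 10) * b ^ ((3 : ℝ) / 10)) :=
        mul_le_mul_of_nonneg_left (mul_le_mul g1 g2 g0 (g0.trans g1)) (mul_nonneg ha hb)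
    _ = _ := by ring

theorem pt3 (a : ℝ) (ha : 0 ≤ a) : a ^ ((13 : ℝ) / 10) ≤ 1 + a ^ ((7 : ℝ) / 5) := by
  rcases le_total a 1 with h | h
  · have h1 : a ^ ((13 : ℝ) / 10) ≤ 1 := Real.rpow_le_one ha h (by norm_num)
    have h2 : 0 ≤ a ^ ((7 : ℝ) / 5) := Real.rpow_nonneg ha _
    linarith
  · have h1 : a ^ ((13 : ℝ) / 10) ≤ a ^ ((7 : ℝ) / 5) :=
      Real.rpow_le_rpow_of_exponent_le h (by norm_num)
    linarith

/-- the part of the bilinear form where `f x ≤ g y` and `f x * g y ≤ n` -/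
theorem low {α β : Type} [Fintype α] [Fintype β] (A : α → β → ℝ) (hA : ∀ x y, 0 ≤ A x y)
    (w : β → β → ℝ) (hw : ∀ y y', 0 ≤ w y y') (κ D n : ℝ) (hκ : 0 ≤ κ)
    (hn : 0 ≤ n)
    (hAw : ∀ y y', ∑ x, A x y * A x y' ≤ w y y' + κ)
    (hD1 : ∀ y, ∑ y', w y y' ≤ D) (hD2 : ∀ y', ∑ y, w y y' ≤ D)
    (f : α → ℝ) (g : β → ℝ) (hf : ∀ x, 0 ≤ f x) (hg : ∀ y, 0 ≤ g y) :
    (∑ x, ∑ y, (if f x * g y ≤ n ∧ f x ≤ g y then A x y * (f x * g y) else 0)) ^ 2 ≤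
      (∑ x, f x ^ ((7 : ℝ) / 5)) *
        (2 * D * n ^ ((3 : ℝ) / 5) * (∑ y, g y ^ ((7 : ℝ) / 5)) +
          κ * (∑ y, g y ^ ((13 : ℝ) / 10)) ^ 2) := by
  classical
  set c : α → β → ℝ := fun x y => if f x * g y ≤ n ∧ f x ≤ g y then A x y * g y else 0 with hc
  have hc0 : ∀ x y, 0 ≤ c x y := by
    intro x y
    simp only [hc]
    split_ifs
    · exact mul_nonneg (hA x y) (hg y)
    · exact le_rfl
  have e1 : ∀ x, ∑ y, (if f x * g y ≤ n ∧ f x ≤ g y then A x y * (f x * g y) else 0) =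
      f x ^ ((7 : ℝ) / 10) * (f x ^ ((3 : ℝ) / 10) * ∑ y, c x y) := by
    intro x
    have e2 : f x ^ ((7 : ℝ) / 10) * (f x ^ ((3 : ℝ) / 10) * ∑ y, c x y) = f x * ∑ y, c x y := by
      rw [← mul_assoc, ← Real.rpow_add_of_nonneg (hf x) (by norm_num) (by norm_num)]
      norm_num
    rw [e2, Finset.mul_sum]
    refine Finset.sum_congr rfl fun y _ => ?_
    simp only [hc]
    split_ifs
    · ring
    · ring
  rw [Finset.sum_congr rfl fun x _ => e1 x]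
  refine (Finset.sum_mul_sq_le_sq_mul_sq _ _ _).trans ?_
  have e3 : ∑ x, (f x ^ ((7 : ℝ) / 10)) ^ 2 = ∑ x, f x ^ ((7 : ℝ) / 5) := by
    refine Finset.sum_congr rfl fun x _ => ?_
    rw [← Real.rpow_natCast, ← Real.rpow_mul (hf x)]
    norm_num
  rw [e3]
  refine mul_le_mul_of_nonneg_left ?_ (Finset.sum_nonneg fun x _ => Real.rpow_nonneg (hf x) _)
  have e4 : ∀ x, (f x ^ ((3 : ℝ) / 10) * ∑ y, c x y) ^ 2 =
      ∑ y, ∑ y', f x ^ ((3 : ℝ) / 5) * (c x y * c x y') := by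
    intro x
    have e5 : (f x ^ ((3 : ℝ) / 10)) ^ 2 = f x ^ ((3 : ℝ) / 5) := by
      rw [← Real.rpow_natCast, ← Real.rpow_mul (hf x)]
      norm_num
    rw [mul_pow, e5, sq, Finset.sum_mul_sum, Finset.mul_sum]
    refine Finset.sum_congr rfl fun y _ => ?_
    rw [Finset.mul_sum]
  rw [Finset.sum_congr rfl fun x _ => e4 x, Finset.sum_comm]
  have e6 : ∀ y, ∑ x, ∑ y', f x ^ ((3 : ℝ) / 5) * (c x y * c x y') ≤
      ∑ y', (w y y' * (n ^ ((3 : ℝ) / 5) * (g y ^ ((7 : ℝ) / 5) + g y' ^ ((7 : ℝ) / 5))) +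
        κ * (g y ^ ((13 : ℝ) / 10) * g y' ^ ((13 : ℝ) / 10))) := by
    intro y
    rw [Finset.sum_comm]
    refine Finset.sum_le_sum fun y' _ => ?_
    set m : ℝ := min (n ^ ((3 : ℝ) / 5) * (g y ^ ((7 : ℝ) / 5) + g y' ^ ((7 : ℝ) / 5)))
      (g y ^ ((13 : ℝ) / 10) * g y' ^ ((13 : ℝ) / 10)) with hm
    have hm0 : 0 ≤ m := by
      refine le_min ?_ ?_
      · exact mul_nonneg (Real.rpow_nonneg hn _)
          (add_nonneg (Real.rpow_nonneg (hg y) _) (Real.rpow_nonneg (hg y') _))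
      · exact mul_nonneg (Real.rpow_nonneg (hg y) _) (Real.rpow_nonneg (hg y') _)
    have h1 : ∀ x, f x ^ ((3 : ℝ) / 5) * (c x y * c x y') ≤ A x y * A x y' * m := by
      intro x
      simp only [hc]
      by_cases hy : f x * g y ≤ n ∧ f x ≤ g y
      · by_cases hy' : f x * g y' ≤ n ∧ f x ≤ g y'
        · rw [if_pos hy, if_pos hy']
          have h2 : g y * g y' * f x ^ ((3 : ℝ) / 5) ≤ m :=
            le_min (pt1 _ _ _ _ (hf x) (hg y) (hg y') hy.1 hy'.1)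
              (pt2 _ _ _ (hf x) (hg y) (hg y') hy.2 hy'.2)
          calc f x ^ ((3 : ℝ) / 5) * (A x y * g y * (A x y' * g y'))
              = A x y * A x y' * (g y * g y' * f x ^ ((3 : ℝ) / 5)) := by ring
            _ ≤ _ := mul_le_mul_of_nonneg_left h2 (mul_nonneg (hA x y) (hA x y'))
        · rw [if_neg hy', mul_zero, mul_zero]
          exact mul_nonneg (mul_nonneg (hA x y) (hA x y')) hm0
      · rw [if_neg hy, zero_mul, mul_zero]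
        exact mul_nonneg (mul_nonneg (hA x y) (hA x y')) hm0
    calc ∑ x, f x ^ ((3 : ℝ) / 5) * (c x y * c x y') ≤ ∑ x, A x y * A x y' * m :=
          Finset.sum_le_sum fun x _ => h1 x
      _ = (∑ x, A x y * A x y') * m := by rw [Finset.sum_mul]
      _ ≤ (w y y' + κ) * m := mul_le_mul_of_nonneg_right (hAw y y') hm0
      _ = w y y' * m + κ * m := by ring
      _ ≤ _ := add_le_add (mul_le_mul_of_nonneg_left (min_le_left _ _) (hw y y'))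
          (mul_le_mul_of_nonneg_left (min_le_right _ _) hκ)
  refine (Finset.sum_le_sum fun y _ => e6 y).trans ?_
  have e7 : ∑ y, ∑ y', (w y y' * (n ^ ((3 : ℝ) / 5) * (g y ^ ((7 : ℝ) / 5) + g y' ^ ((7 : ℝ) / 5))) +
        κ * (g y ^ ((13 : ℝ) / 10) * g y' ^ ((13 : ℝ) / 10))) =
      n ^ ((3 : ℝ) / 5) * (∑ y, g y ^ ((7 : ℝ) / 5) * ∑ y', w y y') +
      n ^ ((3 : ℝ) / 5) * (∑ y', g y' ^ ((7 : ℝ) / 5) * ∑ y, w y y') +
      κ * (∑ y, g y ^ ((13 : ℝ) / 10)) ^ 2 := by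
    rw [sq, Finset.sum_mul_sum]
    simp only [Finset.mul_sum]
    rw [Finset.sum_comm (f := fun y' y => n ^ ((3 : ℝ) / 5) * (g y' ^ ((7 : ℝ) / 5) * w y y'))]
    rw [← Finset.sum_add_distrib, ← Finset.sum_add_distrib]
    refine Finset.sum_congr rfl fun y _ => ?_
    rw [← Finset.sum_add_distrib, ← Finset.sum_add_distrib]
    refine Finset.sum_congr rfl fun y' _ => ?_
    ring
  rw [e7]
  have hn' : 0 ≤ n ^ ((3 : ℝ) / 5) := Real.rpow_nonneg hn _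
  have h8 : ∑ y, g y ^ ((7 : ℝ) / 5) * ∑ y', w y y' ≤ (∑ y, g y ^ ((7 : ℝ) / 5)) * D := by
    rw [Finset.sum_mul]
    exact Finset.sum_le_sum fun y _ =>
      mul_le_mul_of_nonneg_left (hD1 y) (Real.rpow_nonneg (hg y) _)
  have h9 : ∑ y', g y' ^ ((7 : ℝ) / 5) * ∑ y, w y y' ≤ (∑ y, g y ^ ((7 : ℝ) / 5)) * D := by
    rw [Finset.sum_mul]
    exact Finset.sum_le_sum fun y _ =>
      mul_le_mul_of_nonneg_left (hD2 y) (Real.rpow_nonneg (hg y) _)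
  have h10 := mul_le_mul_of_nonneg_left h8 hn'
  have h11 := mul_le_mul_of_nonneg_left h9 hn'
  nlinarith

/-- the part where `f x * g y > n` -/
theorem high {α β : Type} [Fintype α] [Fintype β] (A : α → β → ℝ) (hA : ∀ x y, 0 ≤ A x y)
    (hA1 : ∀ x y, A x y ≤ 1) (n : ℝ) (hn : 0 ≤ n)
    (f : α → ℝ) (g : β → ℝ) (hf : ∀ x, 0 ≤ f x) (hg : ∀ y, 0 ≤ g y) :
    n ^ ((2 : ℝ) / 5) * (∑ x, ∑ y, (if n < f x * g y then A x y * (f x * g y) else 0)) ≤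
      (∑ x, f x ^ ((7 : ℝ) / 5)) * (∑ y, g y ^ ((7 : ℝ) / 5)) := by
  rw [Finset.sum_mul_sum, Finset.mul_sum]
  refine Finset.sum_le_sum fun x _ => ?_
  rw [Finset.mul_sum]
  refine Finset.sum_le_sum fun y _ => ?_
  have hfg : 0 ≤ f x * g y := mul_nonneg (hf x) (hg y)
  split_ifs with h
  · have h1 : n ^ ((2 : ℝ) / 5) ≤ (f x * g y) ^ ((2 : ℝ) / 5) :=
      Real.rpow_le_rpow hn h.le (by norm_num)
    have h2 : A x y * (f x * g y) ≤ f x * g y := by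
      have := mul_le_mul_of_nonneg_right (hA1 x y) hfg
      linarith
    calc n ^ ((2 : ℝ) / 5) * (A x y * (f x * g y)) ≤ (f x * g y) ^ ((2 : ℝ) / 5) * (f x * g y) :=
          mul_le_mul h1 h2 (mul_nonneg (hA x y) hfg) (Real.rpow_nonneg hfg _)
      _ = (f x * g y) ^ ((7 : ℝ) / 5) := by
          nth_rewrite 2 [← Real.rpow_one (f x * g y)]
          rw [← Real.rpow_add_of_nonneg hfg (by norm_num) (by norm_num)]
          norm_num
      _ = _ := Real.mul_rpow (hf x) (hg y)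
  · rw [mul_zero]
    exact mul_nonneg (Real.rpow_nonneg (hf x) _) (Real.rpow_nonneg (hg y) _)

end Pool.Agent.Y323.Av
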