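import Pool.Agent.Y323.Av.Suff

set_option autoImplicit false

open scoped ENNReal
open Finset

namespace Pool.Agent.Y323.Av

/-- the `ℓ^p` norm of a multiple of an indicator function -/
theorem norm_ind {ι : Type} [Fintype ι] [DecidableEq ι] (E : Finset ι) (hE : E.Nonempty) (c : ℂ)
    (p : ℝ≥0∞) (hp : 1 ≤ p) :
    ‖(WithLp.toLp p (fun x : ι => if x ∈ E then c else 0) : PiLp p (fun _ : ι => ℂ))‖ =
      (E.card : ℝ) ^ (p⁻¹).toReal * ‖c‖ := by
  by_cases hpt : p = ∞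
  · subst hpt
    rw [PiLp.norm_eq_ciSup]
    simp only [ENNReal.inv_top, ENNReal.toReal_zero, Real.rpow_zero, one_mul]
    obtain ⟨x0, hx0⟩ := hE
    have : Nonempty ι := ⟨x0⟩
    apply le_antisymm
    · refine ciSup_le fun x => ?_
      show ‖(if x ∈ E then c else 0)‖ ≤ ‖c‖
      split_ifs
      · exact le_rfl
      · rw [norm_zero]
        exact norm_nonneg _
    · have h := le_ciSup (f := fun x => ‖(WithLp.toLp ∞ (fun x : ι => if x ∈ E then c else 0) :
        PiLp ∞ (fun _ : ι => ℂ)) x‖) (Set.finite_range _).bddAbove x0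
      refine le_trans ?_ h
      show ‖c‖ ≤ ‖(if x0 ∈ E then c else 0)‖
      rw [if_pos hx0]
  · have hp0 : 0 < p.toReal := ENNReal.toReal_pos (by
      intro h
      rw [h] at hp
      exact absurd hp (by norm_num)) hpt
    rw [PiLp.norm_eq_sum hp0]
    have h1 : ∀ x : ι, ‖(WithLp.toLp p (fun x : ι => if x ∈ E then c else 0) :
        PiLp p (fun _ : ι => ℂ)) x‖ ^ p.toReal = if x ∈ E then ‖c‖ ^ p.toReal else 0 := by
      intro x
      show ‖(if x ∈ E then c else 0)‖ ^ p.toReal = _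
      split_ifs
      · rfl
      · rw [norm_zero, Real.zero_rpow hp0.ne']
    rw [Finset.sum_congr rfl fun x _ => h1 x, Finset.sum_ite_mem, Finset.univ_inter,
      Finset.sum_const, nsmul_eq_mul, Real.mul_rpow (Nat.cast_nonneg _)
      (Real.rpow_nonneg (norm_nonneg _) _), ← Real.rpow_mul (norm_nonneg _), ENNReal.toReal_inv,
      one_div, mul_inv_cancel₀ hp0.ne', Real.rpow_one]

section
variable {F : Type} [Field F] [Fintype F] [DecidableEq F]

theorem zero_mem_variety : (0 : Fin 5 → F) ∈ variety 5 3 F := by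
  unfold variety
  simp

/-- the test with the indicator of the origin -/
theorem test1 (p r : ℝ≥0∞) (hp : 1 ≤ p) (hr : 1 ≤ r) (C : ℝ)
    (h : ∀ f : (Fin 5 → F) → ℂ, normLp 5 r (average 5 3 f) ≤ C * normLp 5 p f) :
    (Fintype.card F : ℝ) ^ (-(5 : ℝ) * (r⁻¹).toReal) *
      (((variety 5 3 F).card : ℝ) ^ (r⁻¹).toReal * ((variety 5 3 F).card : ℝ)⁻¹) ≤
      C * (Fintype.card F : ℝ) ^ (-(5 : ℝ) * (p⁻¹).toReal) := by
  have h1 := h (fun x => if x ∈ ({0} : Finset (Fin 5 → F)) then 1 else 0)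
  have e1 : average 5 3 (fun x : Fin 5 → F => if x ∈ ({0} : Finset (Fin 5 → F)) then (1 : ℂ) else 0) =
      (fun y => if y ∈ variety 5 3 F then ((variety 5 3 F).card : ℂ)⁻¹ else 0) := by
    funext y
    unfold average
    have h2 : ∀ x ∈ variety 5 3 F, (if y - x ∈ ({0} : Finset (Fin 5 → F)) then (1 : ℂ) else 0) =
        if y = x then 1 else 0 := by
      intro x _
      simp only [Finset.mem_singleton, sub_eq_zero]
    rw [Finset.sum_congr rfl h2, Finset.sum_ite_eq]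
    split_ifs
    · rw [mul_one]
    · rw [mul_zero]
  rw [e1] at h1
  unfold normLp at h1
  rw [norm_ind _ ⟨0, zero_mem_variety⟩ _ r hr, norm_ind _ ⟨0, Finset.mem_singleton_self _⟩ _ p hp,
    Finset.card_singleton, Nat.cast_one, Real.one_rpow, norm_one, norm_inv,
    Complex.norm_natCast] at h1
  simpa using h1

/-- the test with the indicator of `-H` -/
theorem test2 (p r : ℝ≥0∞) (hp : 1 ≤ p) (hr : 1 ≤ r) (C : ℝ)
    (h : ∀ f : (Fin 5 → F) → ℂ, normLp 5 r (average 5 3 f) ≤ C * normLp 5 p f) :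
    (Fintype.card F : ℝ) ^ (-(5 : ℝ) * (r⁻¹).toReal) ≤
      C * ((Fintype.card F : ℝ) ^ (-(5 : ℝ) * (p⁻¹).toReal) *
        ((variety 5 3 F).card : ℝ) ^ (p⁻¹).toReal) := by
  set E : Finset (Fin 5 → F) := (variety 5 3 F).image (fun x => -x) with hE
  have hEc : E.card = (variety 5 3 F).card := Finset.card_image_of_injective _ neg_injective
  have hEne : E.Nonempty := ⟨0, Finset.mem_image.mpr ⟨0, zero_mem_variety, neg_zero⟩⟩
  have h1 := h (fun x => if x ∈ E then 1 else 0)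
  have hV0 : ((variety 5 3 F).card : ℂ) ≠ 0 := by
    have : 0 < (variety 5 3 F).card := Finset.card_pos.mpr ⟨0, zero_mem_variety⟩
    exact_mod_cast this.ne'
  have e1 : average 5 3 (fun x : Fin 5 → F => if x ∈ E then (1 : ℂ) else 0) 0 = 1 := by
    unfold average
    have h2 : ∀ x ∈ variety 5 3 F, (if (0 : Fin 5 → F) - x ∈ E then (1 : ℂ) else 0) = 1 := by
      intro x hx
      rw [if_pos]
      rw [zero_sub]
      exact Finset.mem_image.mpr ⟨x, hx, rfl⟩
    rw [Finset.sum_congr rfl h2, Finset.sum_const, nsmul_eq_mul, mul_one, inv_mul_cancel₀ hV0]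
  unfold normLp at h1
  rw [norm_ind _ hEne _ p hp, norm_one, mul_one, hEc] at h1
  have h3 : (1 : ℝ) ≤ ‖(WithLp.toLp r (average 5 3 (fun x : Fin 5 → F => if x ∈ E then (1 : ℂ) else 0)) :
      PiLp r (fun _ : Fin 5 → F => ℂ))‖ := by
    have : Fact (1 ≤ r) := ⟨hr⟩
    have h4 := PiLp.norm_apply_le (WithLp.toLp r (average 5 3
      (fun x : Fin 5 → F => if x ∈ E then (1 : ℂ) else 0)) : PiLp r (fun _ : Fin 5 → F => ℂ)) 0
    have h5 : ‖(WithLp.toLp r (average 5 3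
      (fun x : Fin 5 → F => if x ∈ E then (1 : ℂ) else 0)) : PiLp r (fun _ : Fin 5 → F => ℂ)) 0‖ = 1 := by
      show ‖average 5 3 (fun x : Fin 5 → F => if x ∈ E then (1 : ℂ) else 0) 0‖ = 1
      rw [e1, norm_one]
    rw [h5] at h4
    exact h4
  have hq : (0 : ℝ) < (Fintype.card F : ℝ) := by exact_mod_cast Fintype.card_pos
  have h6 : (0 : ℝ) < (Fintype.card F : ℝ) ^ (-(5 : ℝ) * (r⁻¹).toReal) := Real.rpow_pos_of_pos hq _
  refine le_trans ?_ h1
  exact le_mul_of_one_le_right (by exact_mod_cast h6.le) h3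

end

theorem exp_le_zero (a B : ℝ) (h : ∀ n : ℕ, ∃ q : ℕ, n < q ∧ (q : ℝ) ^ a ≤ B) : a ≤ 0 := by
  by_contra ha
  push Not at ha
  have h1 := (tendsto_rpow_atTop ha).comp (tendsto_natCast_atTop_atTop (R := ℝ))
  have h2 := h1.eventually_gt_atTop B
  obtain ⟨n, hn⟩ := Filter.eventually_atTop.mp h2
  obtain ⟨q, hq, hqB⟩ := h n
  have := hn q hq.le
  simp only [Function.comp] at this
  linarith

/-- necessity -/
theorem nec (p r : ℝ≥0∞) (hp : 1 ≤ p) (hr : 1 ≤ r) (h : AveragingBound 5 3 p r) :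
    2 / 5 * (p⁻¹).toReal ≤ (r⁻¹).toReal ∧ 1 - 5 / 2 * (1 - (p⁻¹).toReal) ≤ (r⁻¹).toReal := by
  obtain ⟨N, C, hC⟩ := h
  set u := (p⁻¹).toReal with hu
  set v := (r⁻¹).toReal with hv
  have hu0 : 0 ≤ u := ENNReal.toReal_nonneg
  have hv0 : 0 ≤ v := ENNReal.toReal_nonneg
  have hu1 : u ≤ 1 := toReal_inv_le_one hp
  have hv1 : v ≤ 1 := toReal_inv_le_one hr
  -- the tests
  have key : ∀ n : ℕ, ∃ q : ℕ, n < q ∧ (q : ℝ) ^ (2 * u - 5 * v) ≤ 6 * |C| ∧
      (q : ℝ) ^ (5 * u - 3 - 2 * v) ≤ 6 * |C| := by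
    intro n
    obtain ⟨l, hl, hnl, hmod⟩ := Nat.exists_prime_gt_modEq_one (n + N) (show (4 : ℕ) ≠ 0 by norm_num)
    have : Fact l.Prime := ⟨hl⟩
    have hsq : IsSquare (-1 : ZMod l) := by
      rw [ZMod.exists_sq_eq_neg_one_iff]
      have : l % 4 = 1 % 4 := hmod
      omega
    have hch : N < ringChar (ZMod l) := by
      rw [ZMod.ringChar_zmod_n]
      omega
    have hCl := hC (ZMod l) hch hsq
    have t1 := test1 p r hp hr C hCl
    have t2 := test2 p r hp hr C hCl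
    rw [← hu, ← hv] at t1 t2
    rw [ZMod.card] at t1 t2
    have hup := Pool.H654R4.H_upper (ZMod l)
    rw [← variety_eq, ZMod.card] at hup
    have hup' : (((variety 5 3 (ZMod l)).card : ℕ) : ℝ) ≤ 6 * (l : ℝ) ^ 3 := by exact_mod_cast hup
    have hpos : (0 : ℝ) < ((variety 5 3 (ZMod l)).card : ℝ) := by
      exact_mod_cast Finset.card_pos.mpr ⟨0, zero_mem_variety⟩
    have hl0 : (0 : ℝ) < (l : ℝ) := by exact_mod_cast hl.pos
    have h6 : ∀ w : ℝ, 0 ≤ w → w ≤ 1 → (6 : ℝ) ^ w ≤ 6 := by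
      intro w hw hw1
      calc (6 : ℝ) ^ w ≤ 6 ^ (1 : ℝ) := Real.rpow_le_rpow_of_exponent_le (by norm_num) hw1
        _ = 6 := Real.rpow_one 6
    have hpw : ∀ w : ℝ, 0 ≤ w → w ≤ 1 →
        ((variety 5 3 (ZMod l)).card : ℝ) ^ w ≤ 6 * (l : ℝ) ^ (3 * w) := by
      intro w hw hw1
      calc ((variety 5 3 (ZMod l)).card : ℝ) ^ w ≤ (6 * (l : ℝ) ^ 3) ^ w :=
            Real.rpow_le_rpow hpos.le hup' hw
        _ = 6 ^ w * (l : ℝ) ^ (3 * w) := by
            rw [Real.mul_rpow (by norm_num) (by positivity), ← Real.rpow_natCast,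
              ← Real.rpow_mul hl0.le]
            norm_num
        _ ≤ _ := mul_le_mul_of_nonneg_right (h6 w hw hw1) (Real.rpow_nonneg hl0.le _)
    refine ⟨l, by omega, ?_, ?_⟩
    · -- test 2
      have a1 : (l : ℝ) ^ (-(5 : ℝ) * v) ≤ |C| * ((l : ℝ) ^ (-(5 : ℝ) * u) * (6 * (l : ℝ) ^ (3 * u))) := by
        refine t2.trans ?_
        have a2 : 0 ≤ (l : ℝ) ^ (-(5 : ℝ) * u) * ((variety 5 3 (ZMod l)).card : ℝ) ^ u :=
          mul_nonneg (Real.rpow_nonneg hl0.le _) (Real.rpow_nonneg hpos.le _)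
        calc C * ((l : ℝ) ^ (-(5 : ℝ) * u) * ((variety 5 3 (ZMod l)).card : ℝ) ^ u)
            ≤ |C| * ((l : ℝ) ^ (-(5 : ℝ) * u) * ((variety 5 3 (ZMod l)).card : ℝ) ^ u) :=
              mul_le_mul_of_nonneg_right (le_abs_self C) a2
          _ ≤ _ := mul_le_mul_of_nonneg_left
              (mul_le_mul_of_nonneg_left (hpw u hu0 hu1) (Real.rpow_nonneg hl0.le _))
              (abs_nonneg C)
      have e1 : (l : ℝ) ^ (-(5 : ℝ) * u) * (6 * (l : ℝ) ^ (3 * u)) = 6 * (l : ℝ) ^ (-(2 : ℝ) * u) := by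
        rw [mul_left_comm, ← Real.rpow_add hl0]
        congr 2
        ring
      rw [e1] at a1
      have a3 := mul_le_mul_of_nonneg_left a1 (Real.rpow_nonneg hl0.le (2 * u))
      have e2 : (l : ℝ) ^ (2 * u) * (l : ℝ) ^ (-(5 : ℝ) * v) = (l : ℝ) ^ (2 * u - 5 * v) := by
        rw [← Real.rpow_add hl0]
        congr 1
        ring
      have e3 : (l : ℝ) ^ (2 * u) * (|C| * (6 * (l : ℝ) ^ (-(2 : ℝ) * u))) = 6 * |C| := by
        have : (l : ℝ) ^ (2 * u) * (l : ℝ) ^ (-(2 : ℝ) * u) = 1 := by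
          rw [← Real.rpow_add hl0]
          have : 2 * u + -(2 : ℝ) * u = 0 := by ring
          rw [this, Real.rpow_zero]
        calc _ = 6 * |C| * ((l : ℝ) ^ (2 * u) * (l : ℝ) ^ (-(2 : ℝ) * u)) := by ring
          _ = _ := by rw [this, mul_one]
      rw [e2, e3] at a3
      exact a3
    · -- test 1
      have hv2 : 0 ≤ 1 - v := by linarith
      have b1 := hpw (1 - v) hv2 (by linarith)
      have b2 : ((variety 5 3 (ZMod l)).card : ℝ) ^ v * ((variety 5 3 (ZMod l)).card : ℝ)⁻¹ =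
          (((variety 5 3 (ZMod l)).card : ℝ) ^ (1 - v))⁻¹ := by
        rw [← Real.rpow_neg hpos.le, ← Real.rpow_neg_one, ← Real.rpow_add hpos]
        congr 1
        ring
      rw [b2] at t1
      have hVp : 0 < ((variety 5 3 (ZMod l)).card : ℝ) ^ (1 - v) := Real.rpow_pos_of_pos hpos _
      have hlp : 0 < (l : ℝ) ^ (3 * (1 - v)) := Real.rpow_pos_of_pos hl0 _
      have b3 : (6 * (l : ℝ) ^ (3 * (1 - v)))⁻¹ ≤ (((variety 5 3 (ZMod l)).card : ℝ) ^ (1 - v))⁻¹ :=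
        inv_anti₀ hVp b1
      have b4 : (l : ℝ) ^ (-(5 : ℝ) * v) * (6 * (l : ℝ) ^ (3 * (1 - v)))⁻¹ ≤
          |C| * (l : ℝ) ^ (-(5 : ℝ) * u) := by
        refine (mul_le_mul_of_nonneg_left b3 (Real.rpow_nonneg hl0.le _)).trans (t1.trans ?_)
        exact mul_le_mul_of_nonneg_right (le_abs_self C) (Real.rpow_nonneg hl0.le _)
      have b5 := mul_le_mul_of_nonneg_left b4
        (show 0 ≤ 6 * (l : ℝ) ^ (5 * u) from mul_nonneg (by norm_num) (Real.rpow_nonneg hl0.le _))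
      have e1 : 6 * (l : ℝ) ^ (5 * u) * ((l : ℝ) ^ (-(5 : ℝ) * v) * (6 * (l : ℝ) ^ (3 * (1 - v)))⁻¹) =
          (l : ℝ) ^ (5 * u - 3 - 2 * v) := by
        have : (l : ℝ) ^ (5 * u) * (l : ℝ) ^ (-(5 : ℝ) * v) * ((l : ℝ) ^ (3 * (1 - v)))⁻¹ =
            (l : ℝ) ^ (5 * u - 3 - 2 * v) := by
          rw [← Real.rpow_neg hl0.le, ← Real.rpow_add hl0, ← Real.rpow_add hl0]
          congr 1
          ring
        rw [← this, mul_inv]
        ring
      have e2 : 6 * (l : ℝ) ^ (5 * u) * (|C| * (l : ℝ) ^ (-(5 : ℝ) * u)) = 6 * |C| := by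
        have : (l : ℝ) ^ (5 * u) * (l : ℝ) ^ (-(5 : ℝ) * u) = 1 := by
          rw [← Real.rpow_add hl0]
          have : 5 * u + -(5 : ℝ) * u = 0 := by ring
          rw [this, Real.rpow_zero]
        calc _ = 6 * |C| * ((l : ℝ) ^ (5 * u) * (l : ℝ) ^ (-(5 : ℝ) * u)) := by ring
          _ = _ := by rw [this, mul_one]
      rw [e1, e2] at b5
      exact b5
  have k1 := exp_le_zero (2 * u - 5 * v) (6 * |C|) (fun n => by
    obtain ⟨q, h1, h2, h3⟩ := key n
    exact ⟨q, h1, h2⟩)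
  have k2 := exp_le_zero (5 * u - 3 - 2 * v) (6 * |C|) (fun n => by
    obtain ⟨q, h1, h2, h3⟩ := key n
    exact ⟨q, h1, h3⟩)
  constructor
  · linarith
  · linarith

end Pool.Agent.Y323.Av
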