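import Pool.Agent.Y323.Av.Bil

set_option autoImplicit false

set_option linter.unusedSectionVars false
set_option linter.unusedVariables false

open Finset

namespace Pool.Agent.Y323.Av

variable {G : Type} [AddCommGroup G] [Fintype G] [DecidableEq G]

/-- the normalised norm for a real exponent -/
noncomputable def nm (p : ℝ) (f : G → ℝ) : ℝ :=
  ((Fintype.card G : ℝ)⁻¹ * ∑ x, f x ^ p) ^ (1 / p)

theorem cpos : (0 : ℝ) < (Fintype.card G : ℝ) := by
  have : 0 < Fintype.card G := Fintype.card_pos_iff.mpr ⟨0⟩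
  exact_mod_cast this

theorem base_nonneg (p : ℝ) (f : G → ℝ) (hf : ∀ x, 0 ≤ f x) :
    0 ≤ (Fintype.card G : ℝ)⁻¹ * ∑ x, f x ^ p :=
  mul_nonneg (inv_nonneg.mpr (Nat.cast_nonneg _))
    (Finset.sum_nonneg fun x _ => Real.rpow_nonneg (hf x) _)

theorem nm_nonneg (p : ℝ) (f : G → ℝ) (hf : ∀ x, 0 ≤ f x) : 0 ≤ nm p f :=
  Real.rpow_nonneg (base_nonneg p f hf) _

theorem nm_mono (f : G → ℝ) (hf : ∀ x, 0 ≤ f x) {a b : ℝ} (ha : 0 < a) (hab : a ≤ b) :
    nm a f ≤ nm b f := by
  have hb : 0 < b := ha.trans_le hab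
  have hN := cpos (G := G)
  have h1 := Real.rpow_arith_mean_le_arith_mean_rpow Finset.univ
    (fun _ : G => (Fintype.card G : ℝ)⁻¹) (fun x => f x ^ a) (fun _ _ => by positivity)
    (by
      rw [Finset.sum_const, Finset.card_univ, nsmul_eq_mul]
      exact mul_inv_cancel₀ hN.ne')
    (fun x _ => Real.rpow_nonneg (hf x) _) (p := b / a) (by rw [le_div_iff₀ ha]; linarith)
  have e : ∀ x, (f x ^ a) ^ (b / a) = f x ^ b := by
    intro x
    rw [← Real.rpow_mul (hf x)]
    congr 1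
    field_simp
  simp only [e] at h1
  rw [← Finset.mul_sum, ← Finset.mul_sum] at h1
  have h0 := base_nonneg a f hf
  unfold nm
  calc ((Fintype.card G : ℝ)⁻¹ * ∑ x, f x ^ a) ^ (1 / a)
      = (((Fintype.card G : ℝ)⁻¹ * ∑ x, f x ^ a) ^ (b / a)) ^ (1 / b) := by
        rw [← Real.rpow_mul h0]
        congr 1
        field_simp
    _ ≤ _ := Real.rpow_le_rpow (Real.rpow_nonneg h0 _) h1 (by positivity)

theorem avg_jensen (V : Finset G) (hV : V.Nonempty) (z : G → ℝ) (hz : ∀ x, 0 ≤ z x) {s : ℝ}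
    (hs : 1 ≤ s) :
    ((V.card : ℝ)⁻¹ * ∑ x ∈ V, z x) ^ s ≤ (V.card : ℝ)⁻¹ * ∑ x ∈ V, z x ^ s := by
  have hc : (0 : ℝ) < V.card := by exact_mod_cast hV.card_pos
  have h1 := Real.rpow_arith_mean_le_arith_mean_rpow V
    (fun _ : G => (V.card : ℝ)⁻¹) z (fun _ _ => by positivity)
    (by
      rw [Finset.sum_const, nsmul_eq_mul]
      exact mul_inv_cancel₀ hc.ne')
    (fun x _ => hz x) hs
  rwa [← Finset.mul_sum, ← Finset.mul_sum] at h1

theorem nm_holder (f h : G → ℝ) (hf : ∀ x, 0 ≤ f x) (hh : ∀ x, 0 ≤ h x) {P P' : ℝ}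
    (hP : P.HolderConjugate P') :
    ∑ x, f x * h x ≤ (Fintype.card G : ℝ) * (nm P f * nm P' h) := by
  have hN := cpos (G := G)
  refine (Real.inner_le_Lp_mul_Lq_of_nonneg Finset.univ hP (fun x _ => hf x)
    (fun x _ => hh x)).trans (le_of_eq ?_)
  have e : ∀ (p : ℝ) (u : G → ℝ), (∀ x, 0 ≤ u x) →
      (∑ x, u x ^ p) ^ (1 / p) = (Fintype.card G : ℝ) ^ (1 / p) * nm p u := by
    intro p u hu
    unfold nm
    rw [← Real.mul_rpow hN.le (base_nonneg p u hu)]
    congr 1
    field_simp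
  rw [e P f hf, e P' h hh]
  have e2 : (Fintype.card G : ℝ) ^ (1 / P) * (Fintype.card G : ℝ) ^ (1 / P') = Fintype.card G := by
    rw [← Real.rpow_add hN, one_div, one_div, hP.inv_add_inv_eq_one, Real.rpow_one]
  calc _ = ((Fintype.card G : ℝ) ^ (1 / P) * (Fintype.card G : ℝ) ^ (1 / P')) *
        (nm P f * nm P' h) := by ring
    _ = _ := by rw [e2]

theorem nm_dual (u : G → ℝ) (hu : ∀ x, 0 ≤ u x) {R R' : ℝ} (hR : R.HolderConjugate R') (A : ℝ)
    (h : ∀ g : G → ℝ, (∀ x, 0 ≤ g x) → ∑ x, g x ^ R' ≤ (Fintype.card G : ℝ) →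
      ∑ x, u x * g x ≤ A * (Fintype.card G : ℝ)) :
    nm R u ≤ A := by
  have hN := cpos (G := G)
  have hRp := hR.pos
  have hRp' := hR.symm.pos
  have hA : 0 ≤ A := by
    have := h (fun _ => 0) (fun _ => le_rfl) (by
      rw [Finset.sum_congr rfl fun x _ => Real.zero_rpow hRp'.ne']
      simp)
    simp only [mul_zero, Finset.sum_const_zero] at this
    exact nonneg_of_mul_nonneg_left this hN
  have hs0 : 0 ≤ ∑ x, u x ^ R := Finset.sum_nonneg fun x _ => Real.rpow_nonneg (hu x) _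
  rcases hs0.eq_or_lt with hs | hs
  · unfold nm
    rw [← hs, mul_zero, Real.zero_rpow (by positivity)]
    exact hA
  · set s := ∑ x, u x ^ R with hsdef
    set N := (Fintype.card G : ℝ) with hNdef
    have hc : 0 < (N / s) ^ (1 / R') := Real.rpow_pos_of_pos (div_pos hN hs) _
    have h1 := h (fun x => (N / s) ^ (1 / R') * u x ^ (R - 1))
      (fun x => mul_nonneg hc.le (Real.rpow_nonneg (hu x) _)) (by
        have : ∀ x, ((N / s) ^ (1 / R') * u x ^ (R - 1)) ^ R' = (N / s) * u x ^ R := by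
          intro x
          rw [Real.mul_rpow hc.le (Real.rpow_nonneg (hu x) _), ← Real.rpow_mul (div_pos hN hs).le,
            ← Real.rpow_mul (hu x), one_div, inv_mul_cancel₀ hRp'.ne', Real.rpow_one,
            hR.sub_one_mul_conj]
        rw [Finset.sum_congr rfl fun x _ => this x, ← Finset.mul_sum, ← hsdef]
        rw [div_mul_cancel₀ _ hs.ne'])
    have h2 : ∑ x, u x * ((N / s) ^ (1 / R') * u x ^ (R - 1)) = (N / s) ^ (1 / R') * s := by
      rw [hsdef, Finset.mul_sum]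
      refine Finset.sum_congr rfl fun x _ => ?_
      have : u x * u x ^ (R - 1) = u x ^ R := by
        rcases (hu x).eq_or_lt with h0 | h0
        · rw [← h0, zero_mul, Real.zero_rpow hRp.ne']
        · rw [← Real.rpow_one_add' h0.le (by simp [hRp.ne'])]
          congr 1
          ring
      rw [← this]
      ring
    rw [h2] at h1
    have h3 : nm R u = (N / s) ^ (1 / R') * s / N := by
      unfold nm
      rw [← hsdef, ← hNdef]
      have e1 : N⁻¹ * s = (N / s)⁻¹ := by
        rw [inv_div]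
        ring
      have e2 : (N / s) ^ (1 / R') = (N / s)⁻¹ ^ (1 / R) * (N / s) := by
        have hp : 0 < N / s := div_pos hN hs
        rw [Real.inv_rpow hp.le, ← Real.rpow_neg hp.le]
        nth_rewrite 3 [← Real.rpow_one (N / s)]
        rw [← Real.rpow_add hp]
        congr 1
        have := hR.inv_add_inv_eq_one
        rw [one_div, one_div]
        linarith
      rw [e1, e2]
      field_simp
    rw [h3, div_le_iff₀ hN]
    exact h1

/-- from the normalised bilinear estimate to the norm estimate at the vertex -/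
theorem normA (U : (G → ℝ) → G → ℝ) (h0 : ∀ f : G → ℝ, (∀ x, 0 ≤ f x) → ∀ y, 0 ≤ U f y)
    (hc : ∀ (c : ℝ) (f : G → ℝ) (y : G), U (fun x => c * f x) y = c * U f y) (C : ℝ)
    (hb : ∀ f g : G → ℝ, (∀ x, 0 ≤ f x) → (∀ x, 0 ≤ g x) →
      ∑ x, f x ^ ((7 : ℝ) / 5) ≤ (Fintype.card G : ℝ) →
      ∑ x, g x ^ ((7 : ℝ) / 5) ≤ (Fintype.card G : ℝ) →
      ∑ y, U f y * g y ≤ C * (Fintype.card G : ℝ))
    (f : G → ℝ) (hf : ∀ x, 0 ≤ f x) : nm (7 / 2) (U f) ≤ C * nm (7 / 5) f := by
  have hN := cpos (G := G)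
  have hs0 : 0 ≤ ∑ x, f x ^ ((7 : ℝ) / 5) := Finset.sum_nonneg fun x _ => Real.rpow_nonneg (hf x) _
  rcases hs0.eq_or_lt with hs | hs
  · have hf0 : ∀ x, f x = 0 := by
      intro x
      have h := (Finset.sum_eq_zero_iff_of_nonneg
        (fun x _ => Real.rpow_nonneg (hf x) _)).mp hs.symm x (Finset.mem_univ x)
      rwa [Real.rpow_eq_zero (hf x) (by norm_num)] at h
    have hU : ∀ y, U f y = 0 := by
      intro y
      have h1 := hc 0 f y
      have h2 : (fun x => 0 * f x) = f := by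
        funext x
        rw [hf0 x, mul_zero]
      rw [h2, zero_mul] at h1
      exact h1
    unfold nm
    rw [← hs, Finset.sum_congr rfl fun y _ => by
      rw [hU y, Real.zero_rpow (by norm_num : (7 : ℝ) / 2 ≠ 0)]]
    rw [Finset.sum_const_zero, mul_zero, Real.zero_rpow (by norm_num),
      Real.zero_rpow (by norm_num), mul_zero]
  · set t := nm (7 / 5) f with ht
    have ht0 : 0 < t := by
      rw [ht]
      exact Real.rpow_pos_of_pos (mul_pos (inv_pos.mpr hN) hs) _
    have ht1 : t ^ ((7 : ℝ) / 5) = (Fintype.card G : ℝ)⁻¹ * ∑ x, f x ^ ((7 : ℝ) / 5) := by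
      rw [ht]
      unfold nm
      rw [← Real.rpow_mul (base_nonneg _ f hf)]
      norm_num
    refine nm_dual (U f) (h0 f hf) (R := 7 / 2) (R' := 7 / 5) ?_ (C * t) ?_
    · rw [Real.holderConjugate_iff]
      norm_num
    · intro g hg hsg
      have h1 := hb (fun x => t⁻¹ * f x) g (fun x => mul_nonneg (inv_nonneg.mpr ht0.le) (hf x)) hg
        (by
          have : ∀ x, (t⁻¹ * f x) ^ ((7 : ℝ) / 5) = (t ^ ((7 : ℝ) / 5))⁻¹ * f x ^ ((7 : ℝ) / 5) := by
            intro x
            rw [Real.mul_rpow (inv_nonneg.mpr ht0.le) (hf x), Real.inv_rpow ht0.le]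
          rw [Finset.sum_congr rfl fun x _ => this x, ← Finset.mul_sum, ht1]
          apply le_of_eq
          field_simp) hsg
      have h2 : ∑ y, U (fun x => t⁻¹ * f x) y * g y = t⁻¹ * ∑ y, U f y * g y := by
        rw [Finset.mul_sum]
        refine Finset.sum_congr rfl fun y _ => ?_
        rw [hc]
        ring
      rw [h2, inv_mul_le_iff₀ ht0] at h1
      linarith

/-- the segment from `(0,0)` to the vertex, by Jensen's inequality -/
theorem seg1 (U : (G → ℝ) → G → ℝ) (h0 : ∀ f : G → ℝ, (∀ x, 0 ≤ f x) → ∀ y, 0 ≤ U f y)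
    (hJ : ∀ f : G → ℝ, (∀ x, 0 ≤ f x) → ∀ s : ℝ, 1 ≤ s → ∀ y,
      (U f y) ^ s ≤ U (fun x => f x ^ s) y) (C : ℝ) (hC : 1 ≤ C)
    (hA : ∀ f : G → ℝ, (∀ x, 0 ≤ f x) → nm (7 / 2) (U f) ≤ C * nm (7 / 5) f)
    (s : ℝ) (hs : 1 ≤ s) (f : G → ℝ) (hf : ∀ x, 0 ≤ f x) :
    nm (7 / 2 * s) (U f) ≤ C * nm (7 / 5 * s) f := by
  have hs0 : 0 < s := by linarith
  have hN := cpos (G := G)
  have hfs : ∀ x, 0 ≤ f x ^ s := fun x => Real.rpow_nonneg (hf x) _
  have h1 := hA (fun x => f x ^ s) hfs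
  have e1 : nm (7 / 5 * s) f = (nm (7 / 5) (fun x => f x ^ s)) ^ (1 / s) := by
    unfold nm
    rw [← Real.rpow_mul (base_nonneg _ _ hfs)]
    have : ∀ x, (f x ^ s) ^ ((7 : ℝ) / 5) = f x ^ (7 / 5 * s) := by
      intro x
      rw [← Real.rpow_mul (hf x), mul_comm]
    rw [Finset.sum_congr rfl fun x _ => this x]
    congr 1
    field_simp
  have e2 : nm (7 / 2 * s) (U f) ≤ (nm (7 / 2) (U (fun x => f x ^ s))) ^ (1 / s) := by
    unfold nm
    rw [← Real.rpow_mul (base_nonneg _ _ (h0 _ hfs))]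
    have e3 : (1 : ℝ) / (7 / 2) * (1 / s) = 1 / (7 / 2 * s) := by field_simp
    rw [e3]
    refine Real.rpow_le_rpow (base_nonneg _ _ (h0 _ hf)) ?_ (by positivity)
    refine mul_le_mul_of_nonneg_left ?_ (by positivity)
    refine Finset.sum_le_sum fun y _ => ?_
    rw [mul_comm, Real.rpow_mul (h0 f hf y)]
    exact Real.rpow_le_rpow (Real.rpow_nonneg (h0 f hf y) _) (hJ f hf s hs y) (by norm_num)
  refine e2.trans ?_
  rw [e1]
  have h2 : (nm (7 / 2) (U (fun x => f x ^ s))) ^ (1 / s) ≤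
      (C * nm (7 / 5) (fun x => f x ^ s)) ^ (1 / s) :=
    Real.rpow_le_rpow (nm_nonneg _ _ (h0 _ hfs)) h1 (by positivity)
  refine h2.trans ?_
  rw [Real.mul_rpow (by linarith) (nm_nonneg _ _ hfs)]
  refine mul_le_mul_of_nonneg_right ?_ (Real.rpow_nonneg (nm_nonneg _ _ hfs) _)
  calc C ^ (1 / s) ≤ C ^ (1 : ℝ) :=
        Real.rpow_le_rpow_of_exponent_le hC (by rw [div_le_one hs0]; exact hs)
    _ = C := Real.rpow_one C

/-- the average -/
noncomputable def Tav (V : Finset G) (f : G → ℝ) (y : G) : ℝ :=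
  (V.card : ℝ)⁻¹ * ∑ x ∈ V, f (y - x)

/-- the adjoint average -/
noncomputable def Tdu (V : Finset G) (g : G → ℝ) (x : G) : ℝ :=
  (V.card : ℝ)⁻¹ * ∑ v ∈ V, g (x + v)

theorem Tav_nonneg (V : Finset G) (f : G → ℝ) (hf : ∀ x, 0 ≤ f x) (y : G) : 0 ≤ Tav V f y :=
  mul_nonneg (by positivity) (Finset.sum_nonneg fun x _ => hf _)

theorem Tdu_nonneg (V : Finset G) (f : G → ℝ) (hf : ∀ x, 0 ≤ f x) (y : G) : 0 ≤ Tdu V f y :=
  mul_nonneg (by positivity) (Finset.sum_nonneg fun x _ => hf _)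

theorem Tav_smul (V : Finset G) (c : ℝ) (f : G → ℝ) (y : G) :
    Tav V (fun x => c * f x) y = c * Tav V f y := by
  unfold Tav
  rw [← Finset.mul_sum]
  ring

theorem Tdu_smul (V : Finset G) (c : ℝ) (f : G → ℝ) (y : G) :
    Tdu V (fun x => c * f x) y = c * Tdu V f y := by
  unfold Tdu
  rw [← Finset.mul_sum]
  ring

theorem Tav_bil (V : Finset G) (f g : G → ℝ) :
    ∑ y, Tav V f y * g y = (V.card : ℝ)⁻¹ * bil V f g := by
  unfold bil Tav
  rw [Finset.sum_comm, Finset.mul_sum]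
  refine Finset.sum_congr rfl fun y _ => ?_
  rw [mul_assoc]
  congr 1
  have h1 : ∑ u : G, ker V u y * (f u * g y) =
      ∑ x : G, (if x ∈ V then f (y - x) * g y else 0) := by
    refine Fintype.sum_equiv (Equiv.subLeft y) _ _ fun u => ?_
    unfold ker
    simp
  rw [h1, Finset.sum_ite_mem, Finset.univ_inter, Finset.sum_mul]

theorem Tdu_bil (V : Finset G) (f g : G → ℝ) :
    ∑ x, f x * Tdu V g x = (V.card : ℝ)⁻¹ * bil V f g := by
  unfold bil Tdu
  rw [Finset.mul_sum]
  refine Finset.sum_congr rfl fun x _ => ?_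
  rw [mul_left_comm]
  congr 1
  have h1 : ∑ u : G, ker V x u * (f x * g u) =
      ∑ v : G, (if v ∈ V then f x * g (x + v) else 0) := by
    refine Fintype.sum_equiv (Equiv.subRight x) _ _ fun u => ?_
    unfold ker
    simp
  rw [h1, Finset.sum_ite_mem, Finset.univ_inter, Finset.mul_sum]

/-- the whole region, finite exponents -/
theorem main_real (V : Finset G) (hV : V.Nonempty) (C : ℝ) (hC : 1 ≤ C)
    (hb : ∀ f g : G → ℝ, (∀ x, 0 ≤ f x) → (∀ x, 0 ≤ g x) →
      ∑ x, f x ^ ((7 : ℝ) / 5) ≤ (Fintype.card G : ℝ) →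
      ∑ x, g x ^ ((7 : ℝ) / 5) ≤ (Fintype.card G : ℝ) →
      (V.card : ℝ)⁻¹ * bil V f g ≤ C * (Fintype.card G : ℝ))
    (P R : ℝ) (hP : 1 ≤ P) (hR : 1 ≤ R) (h1 : 2 / 5 * (1 / P) ≤ 1 / R)
    (h2 : 1 - 5 / 2 * (1 - 1 / P) ≤ 1 / R) (f : G → ℝ) (hf : ∀ x, 0 ≤ f x) :
    nm R (Tav V f) ≤ C * nm P f := by
  have hN := cpos (G := G)
  have hP0 : 0 < P := by linarith
  have hR0 : 0 < R := by linarith
  have hA1 := normA (Tav V) (Tav_nonneg V) (Tav_smul V) C
    (fun f g hf hg hsf hsg => by rw [Tav_bil]; exact hb f g hf hg hsf hsg)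
  have hA2 := normA (Tdu V) (Tdu_nonneg V) (Tdu_smul V) C
    (fun g f hg hf hsg hsf => by
      have e : ∑ y, Tdu V g y * f y = ∑ y, f y * Tdu V g y :=
        Finset.sum_congr rfl fun y _ => mul_comm _ _
      rw [e, Tdu_bil]
      exact hb f g hf hg hsf hsg)
  have hs1 := seg1 (Tav V) (Tav_nonneg V)
    (fun f hf s hs y => avg_jensen V hV (fun x => f (y - x)) (fun x => hf _) hs) C hC hA1
  have hs2 := seg1 (Tdu V) (Tdu_nonneg V)
    (fun f hf s hs y => avg_jensen V hV (fun x => f (y + x)) (fun x => hf _) hs) C hC hA2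
  have hT0 := Tav_nonneg V f hf
  rcases le_or_gt (7 / 5) P with hc | hc
  · have h3 := hs1 (5 / 7 * P) (by linarith) f hf
    have e1 : (7 : ℝ) / 2 * (5 / 7 * P) = 5 / 2 * P := by ring
    have e2 : (7 : ℝ) / 5 * (5 / 7 * P) = P := by ring
    rw [e1, e2] at h3
    refine (nm_mono (Tav V f) hT0 hR0 ?_).trans h3
    have h4 : 2 / 5 * (1 / P) * (5 / 2 * P * R) ≤ 1 / R * (5 / 2 * P * R) :=
      mul_le_mul_of_nonneg_right h1 (by positivity)
    have e3 : 2 / 5 * (1 / P) * (5 / 2 * P * R) = R := by field_simp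
    have e4 : 1 / R * (5 / 2 * P * R) = 5 / 2 * P := by field_simp
    rw [e3, e4] at h4
    exact h4
  · rcases hP.eq_or_lt with hP1 | hP1
    · -- `P = 1`
      have hRe : R = 1 := by
        rw [← hP1] at h2
        norm_num at h2
        have := (one_le_inv₀ hR0).mp h2
        linarith
      rw [hRe, ← hP1]
      have e : nm 1 (Tav V f) = nm 1 f := by
        unfold nm
        congr 1
        congr 1
        simp only [Real.rpow_one]
        unfold Tav
        rw [← Finset.mul_sum, Finset.sum_comm]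
        have : ∀ x ∈ V, ∑ y, f (y - x) = ∑ y, f y := fun x _ =>
          Fintype.sum_equiv (Equiv.subRight x) _ _ fun u => rfl
        rw [Finset.sum_congr rfl this, Finset.sum_const, nsmul_eq_mul, ← mul_assoc,
          inv_mul_cancel₀ (by exact_mod_cast hV.card_pos.ne'), one_mul]
      rw [e]
      have := nm_nonneg 1 f hf
      nlinarith
    · -- `1 < P < 7/5`
      have hP1' : 0 < P - 1 := by linarith
      set P' := P / (P - 1) with hP'
      have hPc : P.HolderConjugate P' := (Real.holderConjugate_iff_eq_conjExponent hP1).mpr rfl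
      have hP'1 : 7 / 2 ≤ P' := by
        rw [hP', le_div_iff₀ hP1']
        linarith
      have hP'0 : 0 < P' := by linarith
      set S' := 2 / 5 * P' with hS'
      have hS'1 : 1 < S' := by rw [hS']; linarith
      have hSc : S'.HolderConjugate (S' / (S' - 1)) :=
        (Real.holderConjugate_iff_eq_conjExponent hS'1).mpr rfl
      set S := S' / (S' - 1) with hS
      have hS0 : 0 < S := hSc.symm.pos
      have hRS : R ≤ S := by
        have e1 : 1 / P = 1 - 1 / P' := by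
          have := hPc.inv_add_inv_eq_one
          rw [one_div, one_div]
          linarith
        have e2 : 1 / S = 1 - 5 / 2 * (1 / P') := by
          have := hSc.inv_add_inv_eq_one
          rw [one_div]
          have e3 : S'⁻¹ = 5 / 2 * (1 / P') := by
            rw [hS']
            field_simp
          linarith
        have h3 : 1 / S ≤ 1 / R := by
          rw [e2]
          rw [e1] at h2
          linarith
        exact (one_div_le_one_div hS0 hR0).mp h3
      refine (nm_mono (Tav V f) hT0 hR0 hRS).trans ?_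
      refine nm_dual (Tav V f) hT0 hSc.symm _ ?_
      intro g hg hsg
      have hTg := Tdu_nonneg V g hg
      rw [Tav_bil, ← Tdu_bil]
      refine (nm_holder f (Tdu V g) hf hTg hPc).trans ?_
      have h3 := hs2 (2 / 7 * P') (by linarith) g hg
      have e1 : (7 : ℝ) / 2 * (2 / 7 * P') = P' := by ring
      have e2 : (7 : ℝ) / 5 * (2 / 7 * P') = S' := by rw [hS']; ring
      rw [e1, e2] at h3
      have h4 : nm S' g ≤ 1 := by
        unfold nm
        refine Real.rpow_le_one (base_nonneg _ _ hg) ?_ (by positivity)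
        rw [inv_mul_le_iff₀ hN]
        linarith
      have h5 : nm P' (Tdu V g) ≤ C := by
        refine h3.trans ?_
        nlinarith
      have h6 := nm_nonneg P f hf
      calc (Fintype.card G : ℝ) * (nm P f * nm P' (Tdu V g))
          ≤ (Fintype.card G : ℝ) * (nm P f * C) :=
            mul_le_mul_of_nonneg_left (mul_le_mul_of_nonneg_left h5 h6) hN.le
        _ = _ := by ring

end Pool.Agent.Y323.Av
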