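import Pool.Agent.Y323.Av.Defs
import Pool.Agent.Y323.Av.Norm
import Pool.Agent.H654R4.All

set_option autoImplicit false

open scoped ENNReal
open Finset

namespace Pool.Agent.Y323.Av

theorem toReal_inv_le_one {p : ℝ≥0∞} (hp : 1 ≤ p) : (p⁻¹).toReal ≤ 1 := by
  have h : p⁻¹ ≤ 1 := ENNReal.inv_le_one.mpr hp
  calc (p⁻¹).toReal ≤ (1 : ℝ≥0∞).toReal := ENNReal.toReal_mono ENNReal.one_ne_top h
    _ = 1 := ENNReal.toReal_one

section
variable {F : Type} [Field F] [Fintype F] [DecidableEq F]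

theorem variety_eq : variety 5 3 F = Pool.H654R4.H F := Pool.H654R4.filter_eq_H F

theorem normLp_eq_nm (d : ℕ) (p : ℝ≥0∞) (hp : 1 ≤ p) (hp' : p ≠ ∞) (f : (Fin d → F) → ℂ) :
    normLp d p f = nm p.toReal (fun x => ‖f x‖) := by
  have hp0 : 0 < p.toReal := ENNReal.toReal_pos (by
    intro h
    rw [h] at hp
    exact absurd hp (by norm_num)) hp'
  have hq : (0 : ℝ) < Fintype.card F := by exact_mod_cast Fintype.card_pos
  unfold normLp nm
  rw [PiLp.norm_eq_sum hp0, ENNReal.toReal_inv]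
  have hs : 0 ≤ ∑ x : Fin d → F, ‖f x‖ ^ p.toReal :=
    Finset.sum_nonneg fun x _ => Real.rpow_nonneg (norm_nonneg _) _
  rw [Real.mul_rpow (by positivity) hs]
  congr 1
  have hc : (Fintype.card (Fin d → F) : ℝ) = (Fintype.card F : ℝ) ^ (d : ℝ) := by
    rw [Real.rpow_natCast]
    simp
  rw [hc, ← Real.rpow_neg hq.le, ← Real.rpow_mul hq.le, one_div]

theorem normLp_top (d : ℕ) (f : (Fin d → F) → ℂ) :
    normLp d ∞ f = ⨆ x, ‖f x‖ := by
  unfold normLp
  rw [PiLp.norm_eq_ciSup]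
  simp

theorem norm_le_normLp_top (d : ℕ) (f : (Fin d → F) → ℂ) (x : Fin d → F) :
    ‖f x‖ ≤ normLp d ∞ f := by
  rw [normLp_top]
  exact le_ciSup (f := fun x => ‖f x‖) (Set.finite_range _).bddAbove x

theorem norm_average_le (d k : ℕ) (f : (Fin d → F) → ℂ) (y : Fin d → F) :
    ‖average d k f y‖ ≤ Tav (variety d k F) (fun x => ‖f x‖) y := by
  unfold average Tav
  rw [norm_mul, norm_inv, Complex.norm_natCast]
  exact mul_le_mul_of_nonneg_left (norm_sum_le _ _) (by positivity)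

theorem Tav_le_const {G : Type} [AddCommGroup G] [Fintype G] [DecidableEq G] (V : Finset G)
    (hV : V.Nonempty) (f : G → ℝ) (M : ℝ) (hf : ∀ x, f x ≤ M) (y : G) : Tav V f y ≤ M := by
  unfold Tav
  have hc : (0 : ℝ) < V.card := by exact_mod_cast hV.card_pos
  rw [inv_mul_le_iff₀ hc]
  calc ∑ x ∈ V, f (y - x) ≤ ∑ _x ∈ V, M := Finset.sum_le_sum fun x _ => hf _
    _ = V.card * M := by rw [Finset.sum_const, nsmul_eq_mul]

theorem nm_le_const {G : Type} [AddCommGroup G] [Fintype G] [DecidableEq G] (R : ℝ) (hR : 0 < R)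
    (u : G → ℝ) (hu : ∀ x, 0 ≤ u x) (M : ℝ) (hM : 0 ≤ M) (h : ∀ x, u x ≤ M) : nm R u ≤ M := by
  have hN := cpos (G := G)
  unfold nm
  have h1 : (Fintype.card G : ℝ)⁻¹ * ∑ x, u x ^ R ≤ M ^ R := by
    rw [inv_mul_le_iff₀ hN]
    calc ∑ x, u x ^ R ≤ ∑ _x : G, M ^ R :=
          Finset.sum_le_sum fun x _ => Real.rpow_le_rpow (hu x) (h x) hR.le
      _ = _ := by rw [Finset.sum_const, nsmul_eq_mul, Finset.card_univ]
  refine (Real.rpow_le_rpow (base_nonneg R u hu) h1 (by positivity)).trans (le_of_eq ?_)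
  rw [← Real.rpow_mul hM, one_div, mul_inv_cancel₀ hR.ne', Real.rpow_one]

theorem nm_le_nm {G : Type} [AddCommGroup G] [Fintype G] [DecidableEq G] (R : ℝ) (hR : 0 < R)
    (u v : G → ℝ) (hu : ∀ x, 0 ≤ u x) (h : ∀ x, u x ≤ v x) : nm R u ≤ nm R v := by
  unfold nm
  refine Real.rpow_le_rpow (base_nonneg R u hu) ?_ (by positivity)
  refine mul_le_mul_of_nonneg_left ?_ (by positivity)
  exact Finset.sum_le_sum fun x _ => Real.rpow_le_rpow (hu x) (h x) hR.le

end

/-- the bilinear bound for the variety, with one constant for all fields -/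
theorem bil_H : ∃ (q0 : ℕ) (C : ℝ), 1 ≤ C ∧ ∀ (F : Type) [Field F] [Fintype F] [DecidableEq F],
    (2 : F) ≠ 0 → (3 : F) ≠ 0 → q0 ≤ Fintype.card F → ∀ i : F, i ^ 2 = -1 →
    ∀ f g : (Fin 5 → F) → ℝ, (∀ x, 0 ≤ f x) → (∀ x, 0 ≤ g x) →
      ∑ x, f x ^ ((7 : ℝ) / 5) ≤ (Fintype.card (Fin 5 → F) : ℝ) →
      ∑ x, g x ^ ((7 : ℝ) / 5) ≤ (Fintype.card (Fin 5 → F) : ℝ) →
      (((variety 5 3 F).card : ℝ))⁻¹ * bil (variety 5 3 F) f g ≤
        C * (Fintype.card (Fin 5 → F) : ℝ) := by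
  obtain ⟨K, hK⟩ := Pool.H654R4.N_bounds Pool.H654R4.task_cover Pool.H654R4.task_neverCube
    Pool.H654R4.task_Binary Pool.H654R4.task_iso Pool.H654R4.task_dir Pool.H654R4.task_aniso1
    Pool.H654R4.task_Aniso2 Pool.H654R4.task_exc Pool.H654R4.task_Vert
  obtain ⟨q0, hq0⟩ := Pool.H654R4.task_lower Pool.H654R4.Sup.task_sup
  refine ⟨q0, 2 * (6 * ((K + 6 : ℕ) + 1) + 1), ?_, ?_⟩
  · push_cast
    have : (0 : ℝ) ≤ K := Nat.cast_nonneg _
    linarith
  intro F _ _ _ h2 h3 hq i hi f g hf hg hsf hsg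
  obtain ⟨hN2, hN1⟩ := hK F h2 h3 i hi
  have hq1 : 1 ≤ Fintype.card F := Fintype.card_pos
  have hG : Fintype.card (Fin 5 → F) = Fintype.card F ^ 5 := by simp
  have hG' : (Fintype.card (Fin 5 → F) : ℝ) = (Fintype.card F : ℝ) ^ 5 := by exact_mod_cast hG
  rw [hG'] at hsf hsg ⊢
  rw [variety_eq]
  have hb := bil_le (Pool.H654R4.H F) (Pool.H654R4.Zset F) (K + 6) (Fintype.card F) hq1 hG
    ((Pool.H654R4.H_upper F).trans (Nat.mul_le_mul_right _ (by omega)))
    ((Pool.H654R4.Zset_card F).trans (Nat.mul_le_mul_right _ (by omega)))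
    (fun z hz => (hN2 z hz).trans (Nat.mul_le_mul_right _ (by omega)))
    (fun z hz hz' => (hN1 z hz hz').trans (Nat.mul_le_mul_right _ (by omega)))
    f g hf hg hsf hsg
  have hVc : (Fintype.card F : ℝ) ^ 3 ≤ 2 * ((Pool.H654R4.H F).card : ℝ) := by
    exact_mod_cast hq0 F h2 h3 hq
  have hqp : (0 : ℝ) < Fintype.card F := by exact_mod_cast hq1
  have hq3 : (0 : ℝ) < (Fintype.card F : ℝ) ^ 3 := by positivity
  have hVp : 0 < ((Pool.H654R4.H F).card : ℝ) := by linarith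
  rw [inv_mul_le_iff₀ hVp]
  refine hb.trans ?_
  have hc : (0 : ℝ) ≤ 6 * (((K + 6 : ℕ) : ℝ) + 1) + 1 := by positivity
  calc (6 * (((K + 6 : ℕ) : ℝ) + 1) + 1) * (Fintype.card F : ℝ) ^ 8
      = (6 * (((K + 6 : ℕ) : ℝ) + 1) + 1) * (Fintype.card F : ℝ) ^ 5 *
          (Fintype.card F : ℝ) ^ 3 := by ring
    _ ≤ (6 * (((K + 6 : ℕ) : ℝ) + 1) + 1) * (Fintype.card F : ℝ) ^ 5 *
          (2 * ((Pool.H654R4.H F).card : ℝ)) :=
        mul_le_mul_of_nonneg_left hVc (by positivity)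
    _ = _ := by ring

/-- sufficiency, with one constant for all exponents -/
theorem suff : ∃ (N : ℕ) (C : ℝ), ∀ p r : ℝ≥0∞, 1 ≤ p → 1 ≤ r →
    2 / 5 * (p⁻¹).toReal ≤ (r⁻¹).toReal → 1 - 5 / 2 * (1 - (p⁻¹).toReal) ≤ (r⁻¹).toReal →
    ∀ (F : Type) [Field F] [Fintype F] [DecidableEq F], N < ringChar F → IsSquare (-1 : F) →
      ∀ f : (Fin 5 → F) → ℂ, normLp 5 r (average 5 3 f) ≤ C * normLp 5 p f := by
  obtain ⟨q0, C, hC, hb⟩ := bil_H
  refine ⟨q0 + 3, C, ?_⟩
  intro p r hp hr h1 h2 F _ _ _ hN hsq f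
  obtain ⟨i, hi⟩ := hsq
  have hpr : (ringChar F).Prime := CharP.char_is_prime F (ringChar F)
  have hne : ∀ n : ℕ, 0 < n → n < ringChar F → ((n : ℕ) : F) ≠ 0 := by
    intro n hn0 hn h
    rw [ringChar.spec] at h
    exact absurd (Nat.le_of_dvd hn0 h) (by omega)
  have hF2 : (2 : F) ≠ 0 := by
    have := hne 2 (by norm_num) (by omega)
    exact_mod_cast this
  have hF3 : (3 : F) ≠ 0 := by
    have := hne 3 (by norm_num) (by omega)
    exact_mod_cast this
  have hq : q0 ≤ Fintype.card F := by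
    have h1 : (ringChar F) ∣ Fintype.card F := by
      rw [← ringChar.spec]
      exact Nat.cast_card_eq_zero F
    have := Nat.le_of_dvd Fintype.card_pos h1
    omega
  have hbF := hb F hF2 hF3 hq i (by rw [pow_two]; exact hi.symm)
  have hVne : (variety 5 3 F).Nonempty := by
    refine ⟨0, ?_⟩
    unfold variety
    simp
  have hf0 : ∀ x, 0 ≤ ‖f x‖ := fun x => norm_nonneg _
  -- `p = ∞`
  have hinf : ∀ x, ‖average 5 3 f x‖ ≤ normLp 5 ∞ f := fun x =>
    (norm_average_le 5 3 f x).trans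
      (Tav_le_const _ hVne _ _ (fun z => norm_le_normLp_top 5 f z) x)
  have hM : 0 ≤ normLp 5 ∞ f := (norm_nonneg _).trans (hinf 0)
  have hCM : normLp 5 ∞ f ≤ C * normLp 5 ∞ f := by nlinarith
  by_cases hrt : r = ∞
  · have hpt : p = ∞ := by
      rw [hrt] at h1
      simp only [ENNReal.inv_top, ENNReal.toReal_zero] at h1
      have h3 : (p⁻¹).toReal = 0 := le_antisymm (by linarith) ENNReal.toReal_nonneg
      rw [ENNReal.toReal_eq_zero_iff] at h3
      rcases h3 with h3 | h3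
      · exact ENNReal.inv_eq_zero.mp h3
      · exfalso
        rw [ENNReal.inv_eq_top] at h3
        rw [h3] at hp
        exact absurd hp (by norm_num)
    rw [hrt, hpt]
    refine le_trans ?_ hCM
    rw [normLp_top 5 (average 5 3 f)]
    exact ciSup_le hinf
  · have hr0 : 0 < r.toReal := ENNReal.toReal_pos (by
      intro h
      rw [h] at hr
      exact absurd hr (by norm_num)) hrt
    rw [normLp_eq_nm 5 r hr hrt]
    by_cases hpt : p = ∞
    · rw [hpt]
      exact (nm_le_const _ hr0 _ (fun x => norm_nonneg _) _ hM hinf).trans hCM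
    · rw [normLp_eq_nm 5 p hp hpt]
      have hp1 : 1 ≤ p.toReal := by
        have := ENNReal.toReal_mono hpt hp
        rwa [ENNReal.toReal_one] at this
      have hr1 : 1 ≤ r.toReal := by
        have := ENNReal.toReal_mono hrt hr
        rwa [ENNReal.toReal_one] at this
      rw [ENNReal.toReal_inv, ENNReal.toReal_inv] at h1 h2
      refine (nm_le_nm _ hr0 _ _ (fun x => norm_nonneg _) (norm_average_le 5 3 f)).trans ?_
      exact main_real _ hVne C hC hbF p.toReal r.toReal hp1 hr1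
        (by rw [one_div, one_div]; exact h1) (by rw [one_div, one_div]; exact h2) _ hf0

end Pool.Agent.Y323.Av
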